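import Mathlib
import Pool.Agent.X124.MV.Det

set_option autoImplicit false

/-!
Values of integral quadratic polynomials at a complex number: small values and the almost
everywhere lower bound.
-/

namespace Pool.Agent.X124.MC

open Finset Pool.Agent.H813R3.Voj MeasureTheory Filter Pool.Agent.X124.MV

/-- the value of `a X^2 + b X + c` -/
noncomputable def evc (u : ℤ × ℤ × ℤ) (z : ℂ) : ℂ := u.1 * z ^ 2 + u.2.1 * z + u.2.2

lemma evc_re (u : ℤ × ℤ × ℤ) (z : ℂ) : (evc u z).re =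
    u.1 * (z.re ^ 2 - z.im ^ 2) + u.2.1 * z.re + u.2.2 := by
  unfold evc
  simp [pow_two]

lemma evc_im (u : ℤ × ℤ × ℤ) (z : ℂ) : (evc u z).im =
    z.im * (2 * u.1 * z.re + u.2.1) := by
  unfold evc
  simp [pow_two]
  ring

/-- the two basic inequalities -/
lemma basic {u : ℤ × ℤ × ℤ} {z : ℂ} {t : ℝ} (h : ‖evc u z‖ ≤ t) :
    |z.im| * |2 * u.1 * z.re + u.2.1| ≤ t ∧
    |(2 * u.1 * z.re + u.2.1) ^ 2 - ds u - 4 * (u.1 : ℝ) ^ 2 * z.im ^ 2| ≤ 4 * |(u.1 : ℝ)| * t := by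
  have h1 := (Complex.abs_im_le_norm (evc u z)).trans h
  have h2 := (Complex.abs_re_le_norm (evc u z)).trans h
  rw [evc_im, abs_mul] at h1
  refine ⟨h1, ?_⟩
  have h3 : (2 * u.1 * z.re + u.2.1) ^ 2 - ds u - 4 * (u.1 : ℝ) ^ 2 * z.im ^ 2 =
      4 * u.1 * (evc u z).re := by
    rw [evc_re]
    unfold ds
    push_cast
    ring
  rw [h3, abs_mul, abs_mul, abs_of_pos (by norm_num : (0 : ℝ) < 4)]
  exact mul_le_mul_of_nonneg_left h2 (by positivity)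

/-- the size of the coefficients -/
lemma size_le {u : ℤ × ℤ × ℤ} {z : ℂ} {m : ℝ} (hm : 1 ≤ m) (ha : u.1 ≠ 0) (hz : ‖z‖ ≤ m)
    (hi : 1 / m ≤ |z.im|) (h : ‖evc u z‖ ≤ 1) : (hn u : ℝ) ≤ 8 * m ^ 2 * |(u.1 : ℝ)| := by
  have hm0 : 0 < m := by linarith
  have ha1 : (1 : ℝ) ≤ |(u.1 : ℝ)| := by exact_mod_cast Int.one_le_abs ha
  obtain ⟨h1, -⟩ := basic h
  have hre := (Complex.abs_re_le_norm z).trans hz
  have h2 : |2 * u.1 * z.re + u.2.1| ≤ m := by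
    have h3 : 1 / m * |2 * u.1 * z.re + u.2.1| ≤ 1 :=
      (mul_le_mul_of_nonneg_right hi (abs_nonneg _)).trans h1
    rw [one_div, inv_mul_le_iff₀ hm0, mul_one] at h3
    exact h3
  have hb : |(u.2.1 : ℝ)| ≤ 3 * m * |(u.1 : ℝ)| := by
    have e : (u.2.1 : ℝ) = (2 * u.1 * z.re + u.2.1) - 2 * u.1 * z.re := by ring
    rw [e]
    have e2 : |2 * (u.1 : ℝ) * z.re| ≤ 2 * |(u.1 : ℝ)| * m := by
      rw [abs_mul, abs_mul, abs_of_pos (by norm_num : (0 : ℝ) < 2)]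
      exact mul_le_mul_of_nonneg_left hre (by positivity)
    have := abs_sub (2 * u.1 * z.re + u.2.1) (2 * (u.1 : ℝ) * z.re)
    nlinarith
  have hc : |(u.2.2 : ℝ)| ≤ 8 * m ^ 2 * |(u.1 : ℝ)| := by
    have e : (u.2.2 : ℂ) = evc u z - (u.1 : ℂ) * z ^ 2 - (u.2.1 : ℂ) * z := by
      unfold evc; ring
    have e1 : |(u.2.2 : ℝ)| = ‖(u.2.2 : ℂ)‖ := (Complex.norm_intCast _).symm
    rw [e1, e]
    have hz0 := norm_nonneg z
    have hz2 : ‖z‖ ^ 2 ≤ m ^ 2 := pow_le_pow_left₀ hz0 hz 2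
    calc _ ≤ ‖evc u z - (u.1 : ℂ) * z ^ 2‖ + ‖(u.2.1 : ℂ) * z‖ := norm_sub_le _ _
      _ ≤ ‖evc u z‖ + ‖(u.1 : ℂ) * z ^ 2‖ + ‖(u.2.1 : ℂ) * z‖ := by
          gcongr; exact norm_sub_le _ _
      _ = ‖evc u z‖ + |(u.1 : ℝ)| * ‖z‖ ^ 2 + |(u.2.1 : ℝ)| * ‖z‖ := by
          rw [norm_mul, norm_mul, norm_pow, Complex.norm_intCast, Complex.norm_intCast]
      _ ≤ 1 + |(u.1 : ℝ)| * m ^ 2 + 3 * m * |(u.1 : ℝ)| * m := by
          gcongr
      _ ≤ _ := by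
          have e2 : 1 ≤ m ^ 2 := one_le_pow₀ hm
          have e3 : 1 ≤ m ^ 2 * |(u.1 : ℝ)| := by nlinarith
          nlinarith
  refine hn_le ?_ ?_ hc
  · nlinarith [one_le_pow₀ hm (n := 2)]
  · nlinarith [mul_le_mul_of_nonneg_left hm hm0.le]

/-- a point with a small value is close to one of two points -/
lemma near_c {u : ℤ × ℤ × ℤ} (ha : u.1 ≠ 0) {m : ℝ} (hm : 1 ≤ m) :
    ∃ y w : ℂ, ∀ (z : ℂ) (t : ℝ), 0 ≤ t → t ≤ 1 → ‖z‖ ≤ m → 1 / m ≤ |z.im| → ‖evc u z‖ ≤ t →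
      ‖z - y‖ ≤ 4 * m ^ 3 * t / |(u.1 : ℝ)| ∨ ‖z - w‖ ≤ 4 * m ^ 3 * t / |(u.1 : ℝ)| := by
  have hm0 : 0 < m := by linarith
  have ha1 : (1 : ℝ) ≤ |(u.1 : ℝ)| := by exact_mod_cast Int.one_le_abs ha
  have ha0 : (0 : ℝ) < |(u.1 : ℝ)| := by linarith
  have ha' : (u.1 : ℝ) ≠ 0 := by exact_mod_cast ha
  set h : ℝ := Real.sqrt (|(ds u : ℝ)|) / (2 * |(u.1 : ℝ)|) with hh
  have hh0 : 0 ≤ h := by positivity
  set p : ℝ := -(u.2.1 : ℝ) / (2 * u.1) with hp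
  refine ⟨⟨p, h⟩, ⟨p, -h⟩, fun z t ht0 ht1 hz hi hv => ?_⟩
  obtain ⟨h1, h2⟩ := basic hv
  have hs0 : 0 < |z.im| := lt_of_lt_of_le (by positivity) hi
  have h3 : |2 * u.1 * z.re + u.2.1| ≤ m * t := by
    have h3 : 1 / m * |2 * u.1 * z.re + u.2.1| ≤ t :=
      (mul_le_mul_of_nonneg_right hi (abs_nonneg _)).trans h1
    rw [one_div, inv_mul_le_iff₀ hm0] at h3
    exact h3
  have hre : |z.re - p| ≤ m * t / |(u.1 : ℝ)| := by
    have e : z.re - p = (2 * u.1 * z.re + u.2.1) / (2 * u.1) := by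
      rw [hp]; field_simp; ring
    rw [e, abs_div, abs_mul, abs_of_pos (by norm_num : (0 : ℝ) < 2)]
    rw [div_le_div_iff₀ (by positivity) ha0]
    have : 0 ≤ m * t := by positivity
    nlinarith
  -- the imaginary part
  have h4 : |ds u + 4 * (u.1 : ℝ) ^ 2 * z.im ^ 2| ≤ 4 * |(u.1 : ℝ)| * t + (m * t) ^ 2 := by
    have e : (ds u : ℝ) + 4 * (u.1 : ℝ) ^ 2 * z.im ^ 2 = (2 * u.1 * z.re + u.2.1) ^ 2 -
      ((2 * u.1 * z.re + u.2.1) ^ 2 - ds u - 4 * (u.1 : ℝ) ^ 2 * z.im ^ 2) := by ring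
    rw [e]
    have h5 := abs_sub ((2 * u.1 * z.re + u.2.1 : ℝ) ^ 2)
      ((2 * u.1 * z.re + u.2.1) ^ 2 - ds u - 4 * (u.1 : ℝ) ^ 2 * z.im ^ 2)
    have h6 : |(2 * u.1 * z.re + u.2.1 : ℝ) ^ 2| ≤ (m * t) ^ 2 := by
      rw [abs_pow]
      exact pow_le_pow_left₀ (abs_nonneg _) h3 2
    linarith
  have h5 : 4 * |(u.1 : ℝ)| * t + (m * t) ^ 2 ≤ 5 * m ^ 2 * |(u.1 : ℝ)| * t := by
    have e1 : t ^ 2 ≤ t := by nlinarith
    have e2 : (1 : ℝ) ≤ m ^ 2 := one_le_pow₀ hm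
    have e3 : m ^ 2 * t ≤ m ^ 2 * |(u.1 : ℝ)| * t := by
      have := mul_le_mul_of_nonneg_left ha1 (by positivity : 0 ≤ m ^ 2 * t)
      nlinarith
    have e4 : |(u.1 : ℝ)| * t ≤ m ^ 2 * |(u.1 : ℝ)| * t := by
      have := mul_le_mul_of_nonneg_right e2 (by positivity : 0 ≤ |(u.1 : ℝ)| * t)
      nlinarith
    have e5 : (m * t) ^ 2 ≤ m ^ 2 * t := by
      rw [mul_pow]
      exact mul_le_mul_of_nonneg_left e1 (by positivity)
    linarith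
  have h6 : |(|z.im| - h)| * |z.im| ≤ 5 * m ^ 2 * t / (4 * |(u.1 : ℝ)|) := by
    have e0 : (4 * (u.1 : ℝ) ^ 2) * h ^ 2 = |(ds u : ℝ)| := by
      rw [hh, div_pow, Real.sq_sqrt (abs_nonneg _), mul_pow, sq_abs]
      field_simp
      ring
    have e1 : |4 * (u.1 : ℝ) ^ 2 * z.im ^ 2 - (|(ds u : ℝ)|)| ≤ 5 * m ^ 2 * |(u.1 : ℝ)| * t := by
      refine le_trans ?_ (h4.trans h5)
      rcases le_total 0 (ds u : ℝ) with hd | hd
      · rw [abs_of_nonneg hd]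
        have : 0 ≤ 4 * (u.1 : ℝ) ^ 2 * z.im ^ 2 := by positivity
        rw [abs_of_nonneg (by linarith : 0 ≤ (ds u : ℝ) + 4 * (u.1 : ℝ) ^ 2 * z.im ^ 2), abs_le]
        constructor <;> linarith
      · rw [abs_of_nonpos hd]
        apply le_of_eq
        congr 1
        ring
    have e2 : 4 * (u.1 : ℝ) ^ 2 * z.im ^ 2 - |(ds u : ℝ)| =
        (4 * (u.1 : ℝ) ^ 2) * ((|z.im| - h) * (|z.im| + h)) := by
      rw [← e0, ← sq_abs z.im]; ring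
    rw [e2, abs_mul (4 * (u.1 : ℝ) ^ 2) _, abs_mul (|z.im| - h) _,
      abs_of_nonneg (by positivity : 0 ≤ |z.im| + h),
      abs_of_nonneg (by positivity : 0 ≤ 4 * (u.1 : ℝ) ^ 2), ← sq_abs (u.1 : ℝ)] at e1
    have e3 : |(|z.im| - h)| * |z.im| ≤ |(|z.im| - h)| * (|z.im| + h) :=
      mul_le_mul_of_nonneg_left (by linarith) (abs_nonneg _)
    rw [le_div_iff₀ (by positivity)]
    have e4 : |(|z.im| - h)| * (|z.im| + h) * (4 * |(u.1 : ℝ)|) * |(u.1 : ℝ)| ≤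
        5 * m ^ 2 * t * |(u.1 : ℝ)| := by
      calc _ = 4 * |(u.1 : ℝ)| ^ 2 * (|(|z.im| - h)| * (|z.im| + h)) := by ring
        _ ≤ _ := e1
        _ = _ := by ring
    have e5 := le_of_mul_le_mul_right e4 ha0
    refine le_trans ?_ e5
    exact mul_le_mul_of_nonneg_right e3 (by positivity)
  have h7 : |(|z.im| - h)| ≤ 5 * m ^ 3 * t / (4 * |(u.1 : ℝ)|) := by
    have e1 : |(|z.im| - h)| * (1 / m) ≤ 5 * m ^ 2 * t / (4 * |(u.1 : ℝ)|) :=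
      (mul_le_mul_of_nonneg_left hi (abs_nonneg _)).trans h6
    rw [mul_one_div, div_le_iff₀ hm0] at e1
    refine e1.trans (le_of_eq ?_)
    field_simp
  have h8 : m * t / |(u.1 : ℝ)| + 5 * m ^ 3 * t / (4 * |(u.1 : ℝ)|) ≤
      4 * m ^ 3 * t / |(u.1 : ℝ)| := by
    have e1 : m ≤ m ^ 3 := by nlinarith [one_le_pow₀ hm (n := 2)]
    have e2 : m * t / |(u.1 : ℝ)| + 5 * m ^ 3 * t / (4 * |(u.1 : ℝ)|) =
        (m + 5 / 4 * m ^ 3) * t / |(u.1 : ℝ)| := by field_simp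
    rw [e2]
    apply div_le_div_of_nonneg_right _ ha0.le
    apply mul_le_mul_of_nonneg_right _ ht0
    nlinarith
  rcases le_total 0 z.im with h9 | h9
  · left
    refine (Complex.norm_le_abs_re_add_abs_im _).trans (le_trans ?_ h8)
    apply add_le_add
    · exact hre
    · rw [abs_of_nonneg h9] at h7
      exact h7
  · right
    refine (Complex.norm_le_abs_re_add_abs_im _).trans (le_trans ?_ h8)
    apply add_le_add
    · exact hre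
    · rw [abs_of_nonpos h9] at h7
      have : |(z - (⟨p, -h⟩ : ℂ)).im| = |(-z.im - h)| := by
        rw [Complex.sub_im, ← abs_neg]
        congr 1
        ring
      rw [this]
      exact h7

/-- the region -/
def Rg (m : ℝ) : Set ℂ := {z | ‖z‖ ≤ m ∧ 1 / m ≤ |z.im|}

/-- the measure of the sublevel set -/
theorem vol_c {u : ℤ × ℤ × ℤ} (hu : ¬ IsSquare (ds u)) {m : ℝ} (hm : 1 ≤ m) (t : ℝ) (ht0 : 0 ≤ t)
    (ht1 : t ≤ 1) : volume {z : ℂ | z ∈ Rg m ∧ ‖evc u z‖ ≤ t} ≤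
      ENNReal.ofReal (10000 * m ^ 10 * t ^ 2 / (hn u : ℝ) ^ 2) := by
  have hm0 : 0 < m := by linarith
  obtain ⟨ha, -⟩ := ne_of_not_sq hu
  have ha1 : (1 : ℝ) ≤ |(u.1 : ℝ)| := by exact_mod_cast Int.one_le_abs ha
  have hn1 : (1 : ℝ) ≤ hn u := by exact_mod_cast one_le_hn hu
  rcases Set.eq_empty_or_nonempty {z : ℂ | z ∈ Rg m ∧ ‖evc u z‖ ≤ t} with he | ⟨z0, hz0⟩
  · rw [he]; simp
  have hsz := size_le hm ha hz0.1.1 hz0.1.2 (hz0.2.trans ht1)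
  obtain ⟨y, w, h⟩ := near_c ha hm
  set ρ : ℝ := 4 * m ^ 3 * t / |(u.1 : ℝ)| with hρ
  have hρ0 : 0 ≤ ρ := by positivity
  have hsub : {z : ℂ | z ∈ Rg m ∧ ‖evc u z‖ ≤ t} ⊆ Metric.closedBall y ρ ∪
      Metric.closedBall w ρ := by
    intro z hz
    rcases h z t ht0 ht1 hz.1.1 hz.1.2 hz.2 with h | h
    · exact Or.inl (by rw [Metric.mem_closedBall, dist_eq_norm]; exact h)
    · exact Or.inr (by rw [Metric.mem_closedBall, dist_eq_norm]; exact h)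
  refine (measure_mono hsub).trans ((measure_union_le _ _).trans ?_)
  rw [Complex.volume_closedBall, Complex.volume_closedBall, ← ENNReal.ofReal_pow hρ0]
  have hpi : ((NNReal.pi : NNReal) : ENNReal) = ENNReal.ofReal Real.pi := by
    rw [← NNReal.coe_real_pi, ENNReal.ofReal_coe_nnreal]
  rw [hpi, ← ENNReal.ofReal_mul (by positivity), ← ENNReal.ofReal_add (by positivity)
    (by positivity)]
  apply ENNReal.ofReal_le_ofReal
  have hpi4 := Real.pi_le_four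
  have hpi0 := Real.pi_pos
  have h1 : ρ ≤ 32 * m ^ 5 * t / hn u := by
    rw [hρ, div_le_div_iff₀ (by linarith) (by linarith)]
    calc 4 * m ^ 3 * t * hn u ≤ 4 * m ^ 3 * t * (8 * m ^ 2 * |(u.1 : ℝ)|) :=
          mul_le_mul_of_nonneg_left hsz (by positivity)
      _ = _ := by ring
  have h2 : ρ ^ 2 ≤ 1024 * m ^ 10 * t ^ 2 / (hn u : ℝ) ^ 2 := by
    have := pow_le_pow_left₀ hρ0 h1 2
    refine this.trans (le_of_eq ?_)
    rw [div_pow]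
    ring
  calc ρ ^ 2 * Real.pi + ρ ^ 2 * Real.pi ≤ 8 * ρ ^ 2 := by nlinarith [sq_nonneg ρ]
    _ ≤ 8 * (1024 * m ^ 10 * t ^ 2 / (hn u : ℝ) ^ 2) := by linarith
    _ = 8192 * m ^ 10 * t ^ 2 / (hn u : ℝ) ^ 2 := by ring
    _ ≤ _ := by
      apply div_le_div_of_nonneg_right _ (by positivity)
      have : 0 ≤ m ^ 10 * t ^ 2 := by positivity
      nlinarith

end Pool.Agent.X124.MC
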