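import Mathlib
import Pool.Agent.X124.MC.Sub

set_option autoImplicit false

/-!
The almost everywhere lower bound for the values at a complex number.
-/

namespace Pool.Agent.X124.MC

open Finset MeasureTheory Filter Pool.Agent.X124.MV

lemma rd_le {N : ℕ} {u : ℤ × ℤ × ℤ} (hu : u ∈ box N) : rd u ≤ 3 * N := by
  unfold rd
  rw [Real.sqrt_le_left (by positivity)]
  have h := ds_le hu
  have h2 : ((ds u).natAbs : ℝ) ≤ 5 * (N : ℝ) ^ 2 := by exact_mod_cast h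
  nlinarith [sq_nonneg (N : ℝ)]

lemma clog_le {n : ℕ} (hn : 1 ≤ n) : 2 ^ Nat.clog 2 n ≤ 2 * n := by
  rcases Nat.lt_or_ge 1 n with h | h
  · have := Nat.pow_pred_clog_lt_self (by norm_num : 1 < 2) h
    have h4 : Nat.clog 2 n = (Nat.clog 2 n).pred + 1 :=
      (Nat.succ_pred_eq_of_pos (Nat.clog_pos (by norm_num) h)).symm
    rw [h4, pow_succ]
    omega
  · have : n = 1 := le_antisymm h hn
    rw [this]; simp

/-- **Almost every complex number, in a region.** -/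
theorem ae_region (ε : ℝ) (hε : 0 < ε) (m : ℝ) (hm : 1 ≤ m) : ∀ᵐ z : ℂ, z ∈ Rg m →
    ∃ c : ℝ, 0 < c ∧ ∀ u : ℤ × ℤ × ℤ, ¬ IsSquare (ds u) →
      c * (hn u : ℝ) ^ (-ε) * Real.sqrt (wt u) ≤ ‖evc u z‖ := by
  classical
  obtain ⟨C, hC, hsum⟩ := sum_one ε hε
  set T : (ℤ × ℤ × ℤ) → ℕ → ℝ := fun u k =>
    ((2 : ℝ) ^ k) ^ (-ε) * ((hn u : ℝ) / 2 ^ k) * Real.sqrt (wt u) with hT
  set E : ℕ → Set ℂ := fun k => ⋃ u ∈ (box (2 ^ k)).filter (fun u => ¬ IsSquare (ds u)),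
    {z : ℂ | z ∈ Rg m ∧ ‖evc u z‖ ≤ T u k} with hE
  set r : ℝ := (2 : ℝ) ^ (-ε) with hr
  have hr0 : 0 < r := by positivity
  have hr1 : r < 1 := Real.rpow_lt_one_of_one_lt_of_neg (by norm_num) (by linarith)
  have hrk : ∀ k : ℕ, ((2 : ℝ) ^ k) ^ (-ε) = r ^ k := by
    intro k
    rw [hr, ← Real.rpow_natCast, ← Real.rpow_mul (by norm_num), ← Real.rpow_natCast,
      ← Real.rpow_mul (by norm_num), mul_comm]
  have hvol : ∀ k, volume (E k) ≤ ENNReal.ofReal (30000 * m ^ 10 * C * ((k : ℝ) + 1) ^ 2 * r ^ k) := by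
    intro k
    refine (measure_biUnion_finset_le _ _).trans ?_
    have h2k : (0 : ℝ) < 2 ^ k := by positivity
    have h1 : ∀ u ∈ (box (2 ^ k)).filter (fun u => ¬ IsSquare (ds u)),
        volume {z : ℂ | z ∈ Rg m ∧ ‖evc u z‖ ≤ T u k} ≤ ENNReal.ofReal
          (30000 * m ^ 10 * (((2 : ℝ) ^ k) ^ (-(2 * ε)) * ((2 : ℝ) ^ k)⁻¹) * (wt u / rd u)) := by
      intro u hu
      rw [Finset.mem_filter] at hu
      have hn1 : (1 : ℝ) ≤ hn u := by exact_mod_cast one_le_hn hu.2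
      have hn2 : (hn u : ℝ) ≤ 2 ^ k := by
        have hb := mem_box.1 hu.1
        apply hn_le
        · have : ((|u.1| : ℤ) : ℝ) ≤ (((2 ^ k : ℕ) : ℤ) : ℝ) := by exact_mod_cast hb.1
          push_cast at this
          exact this
        · have : ((|u.2.1| : ℤ) : ℝ) ≤ (((2 ^ k : ℕ) : ℤ) : ℝ) := by exact_mod_cast hb.2.1
          push_cast at this
          exact this
        · have : ((|u.2.2| : ℤ) : ℝ) ≤ (((2 ^ k : ℕ) : ℤ) : ℝ) := by exact_mod_cast hb.2.2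
          push_cast at this
          exact this
      have hw := wt_pos u
      have hw1 := wt_le u
      have hsq : Real.sqrt (wt u) ≤ 1 := by
        rw [Real.sqrt_le_one]; exact hw1
      have hT0 : 0 ≤ T u k := by rw [hT]; positivity
      have hT1 : T u k ≤ 1 := by
        rw [hT]
        simp only
        have e1 : ((2 : ℝ) ^ k) ^ (-ε) ≤ 1 :=
          Real.rpow_le_one_of_one_le_of_nonpos (one_le_pow₀ (by norm_num)) (by linarith)
        have e2 : (hn u : ℝ) / 2 ^ k ≤ 1 := by rw [div_le_one h2k]; exact hn2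
        have e3 : 0 ≤ (hn u : ℝ) / 2 ^ k := by positivity
        exact mul_le_one₀ (mul_le_one₀ e1 e3 e2) (Real.sqrt_nonneg _) hsq
      refine (vol_c hu.2 hm _ hT0 hT1).trans (ENNReal.ofReal_le_ofReal ?_)
      have hrd := rd_pos (ne_of_not_sq hu.2).2
      have hrd2 : rd u ≤ 3 * 2 ^ k := by
        have := rd_le hu.1
        push_cast at this
        exact this
      have e1 : T u k ^ 2 = ((2 : ℝ) ^ k) ^ (-(2 * ε)) * ((hn u : ℝ) ^ 2 / (2 ^ k) ^ 2) * wt u := by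
        rw [hT]
        simp only
        rw [mul_pow, mul_pow, Real.sq_sqrt hw.le, div_pow, ← Real.rpow_natCast
          (((2 : ℝ) ^ k) ^ (-ε)) 2, ← Real.rpow_mul h2k.le]
        congr 3
        push_cast
        ring
      rw [e1]
      have e2 : 10000 * m ^ 10 * (((2 : ℝ) ^ k) ^ (-(2 * ε)) * ((hn u : ℝ) ^ 2 / (2 ^ k) ^ 2) * wt u)
          / (hn u : ℝ) ^ 2 = 10000 * m ^ 10 * (((2 : ℝ) ^ k) ^ (-(2 * ε)) * ((2 : ℝ) ^ k)⁻¹) *
          (wt u * ((2 : ℝ) ^ k)⁻¹) := by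
        have : (hn u : ℝ) ≠ 0 := by linarith
        field_simp
      rw [e2]
      have e3 : wt u * ((2 : ℝ) ^ k)⁻¹ ≤ 3 * (wt u / rd u) := by
        have e4 : ((2 : ℝ) ^ k)⁻¹ ≤ 3 / rd u := by
          rw [← one_div, div_le_div_iff₀ h2k hrd]
          linarith
        calc wt u * ((2 : ℝ) ^ k)⁻¹ ≤ wt u * (3 / rd u) := mul_le_mul_of_nonneg_left e4 hw.le
          _ = _ := by ring
      calc _ ≤ 10000 * m ^ 10 * (((2 : ℝ) ^ k) ^ (-(2 * ε)) * ((2 : ℝ) ^ k)⁻¹) *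
          (3 * (wt u / rd u)) := mul_le_mul_of_nonneg_left e3 (by positivity)
        _ = _ := by ring
    refine (Finset.sum_le_sum h1).trans ?_
    rw [← ENNReal.ofReal_sum_of_nonneg (fun u hu => by
      have := wt_pos u
      have := rd_pos (ne_of_not_sq (Finset.mem_filter.1 hu).2).2
      positivity)]
    apply ENNReal.ofReal_le_ofReal
    rw [← Finset.mul_sum]
    calc 30000 * m ^ 10 * (((2 : ℝ) ^ k) ^ (-(2 * ε)) * ((2 : ℝ) ^ k)⁻¹) * _ ≤
          30000 * m ^ 10 * (((2 : ℝ) ^ k) ^ (-(2 * ε)) * ((2 : ℝ) ^ k)⁻¹) *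
            (C * ((2 : ℝ) ^ k) ^ (1 + ε) * ((k : ℝ) + 1) ^ 2) :=
          mul_le_mul_of_nonneg_left (hsum k) (by positivity)
      _ = 30000 * m ^ 10 * C * ((k : ℝ) + 1) ^ 2 * (((2 : ℝ) ^ k) ^ (-(2 * ε)) *
            ((2 : ℝ) ^ k) ^ (1 + ε) * ((2 : ℝ) ^ k)⁻¹) := by ring
      _ = _ := by
          rw [← Real.rpow_add (by positivity), ← Real.rpow_neg_one, ← Real.rpow_add (by positivity),
            ← hrk]
          congr 2
          ring
  have hBC := ae_eventually_notMem (tsum_ne_top hr0 hr1 (by positivity) 2 hvol)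
  filter_upwards [hBC] with z hz hzR
  obtain ⟨k0, hk0⟩ := eventually_atTop.1 hz
  have hP : (0 : ℝ) < 2 ^ (k0 + 1) := by positivity
  refine ⟨((2 : ℝ) ^ (k0 + 1)) ^ (-ε) * (1 / 2 ^ (k0 + 1)), by positivity, fun u hu => ?_⟩
  have hn1 := one_le_hn hu
  set k := max (Nat.clog 2 (hn u)) k0 with hk
  have h1 : hn u ≤ 2 ^ k := (Nat.le_pow_clog (by norm_num) _).trans
    (Nat.pow_le_pow_right (by norm_num) (le_max_left _ _))
  have h2 : 2 ^ k ≤ 2 ^ (k0 + 1) * hn u := by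
    have h3 := clog_le hn1
    rcases le_total (Nat.clog 2 (hn u)) k0 with h | h
    · rw [hk, max_eq_right h, pow_succ]
      nlinarith [Nat.one_le_two_pow (n := k0)]
    · rw [hk, max_eq_left h, pow_succ]
      calc 2 ^ Nat.clog 2 (hn u) ≤ 2 * hn u := h3
        _ ≤ 2 ^ k0 * 2 * hn u := by nlinarith [Nat.one_le_two_pow (n := k0)]
  have h5 := hk0 k (le_max_right _ _)
  rw [hE] at h5
  simp only [Set.mem_iUnion, not_exists, Set.mem_ofPred_eq, not_and, not_le] at h5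
  have h6 := h5 u (Finset.mem_filter.2 ⟨mem_box_of_hn h1, hu⟩) hzR
  have hnr : (1 : ℝ) ≤ hn u := by exact_mod_cast hn1
  have h2' : (2 : ℝ) ^ k ≤ 2 ^ (k0 + 1) * hn u := by exact_mod_cast h2
  have h2k : (0 : ℝ) < 2 ^ k := by positivity
  refine le_trans (mul_le_mul_of_nonneg_right ?_ (Real.sqrt_nonneg _)) h6.le
  have e1 : ((2 : ℝ) ^ (k0 + 1)) ^ (-ε) * (hn u : ℝ) ^ (-ε) ≤ ((2 : ℝ) ^ k) ^ (-ε) := by
    rw [← Real.mul_rpow hP.le (Nat.cast_nonneg _)]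
    exact Real.rpow_le_rpow_of_nonpos h2k h2' (by linarith)
  have e2 : 1 / 2 ^ (k0 + 1) ≤ (hn u : ℝ) / 2 ^ k := by
    rw [div_le_div_iff₀ hP h2k]
    linarith
  calc ((2 : ℝ) ^ (k0 + 1)) ^ (-ε) * (1 / 2 ^ (k0 + 1)) * (hn u : ℝ) ^ (-ε) =
      (((2 : ℝ) ^ (k0 + 1)) ^ (-ε) * (hn u : ℝ) ^ (-ε)) * (1 / 2 ^ (k0 + 1)) := by ring
    _ ≤ _ := mul_le_mul e1 e2 (by positivity) (by positivity)

/-- almost every complex number is not real -/
lemma ae_im : ∀ᵐ z : ℂ, z.im ≠ 0 := by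
  have h : volume ((LinearMap.ker Complex.imLm : Submodule ℝ ℂ) : Set ℂ) = 0 := by
    apply Measure.addHaar_submodule
    intro h
    have h1 : Complex.I ∈ (LinearMap.ker Complex.imLm : Submodule ℝ ℂ) := by rw [h]; trivial
    rw [LinearMap.mem_ker] at h1
    simp at h1
  rw [ae_iff]
  refine measure_mono_null (fun z hz => ?_) h
  simp only [ne_eq, not_not, Set.mem_ofPred_eq] at hz
  show z ∈ LinearMap.ker Complex.imLm
  rw [LinearMap.mem_ker]
  exact hz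

/-- **Almost every complex number.** -/
theorem ae_c (ε : ℝ) (hε : 0 < ε) : ∀ᵐ z : ℂ,
    ∃ c : ℝ, 0 < c ∧ ∀ u : ℤ × ℤ × ℤ, ¬ IsSquare (ds u) →
      c * (hn u : ℝ) ^ (-ε) * Real.sqrt (wt u) ≤ ‖evc u z‖ := by
  have h1 : ∀ᵐ z : ℂ, ∀ n : ℕ, z ∈ Rg ((n : ℝ) + 1) → ∃ c : ℝ, 0 < c ∧ ∀ u : ℤ × ℤ × ℤ,
      ¬ IsSquare (ds u) → c * (hn u : ℝ) ^ (-ε) * Real.sqrt (wt u) ≤ ‖evc u z‖ := by
    rw [ae_all_iff]
    intro n
    exact ae_region ε hε _ (by have := Nat.cast_nonneg (α := ℝ) n; linarith)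
  filter_upwards [h1, ae_im] with z hz hi
  have hi0 : 0 < |z.im| := abs_pos.2 hi
  obtain ⟨n, hn⟩ := exists_nat_gt (max ‖z‖ (1 / |z.im|))
  refine hz n ⟨?_, ?_⟩
  · have := (le_max_left ‖z‖ (1 / |z.im|)).trans hn.le
    linarith
  · have h2 := (le_max_right ‖z‖ (1 / |z.im|)).trans hn.le
    have hn0 : (0 : ℝ) ≤ n := Nat.cast_nonneg n
    rw [div_le_iff₀ (by linarith)]
    rw [div_le_iff₀ hi0] at h2
    nlinarith

end Pool.Agent.X124.MC
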