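import Mathlib
import Pool.Agent.X124.MV.Main
import Pool.Agent.X124.MC.Ae

set_option autoImplicit false

/-!
The lower bounds for the sums of the logarithms of the values at real points and at pairs of
conjugate complex points.
-/

namespace Pool.Agent.X124.MC

open Finset MeasureTheory Filter Pool.Agent.X124.MV ComplexConjugate

lemma evc_conj (u : ℤ × ℤ × ℤ) (z : ℂ) : evc u (conj z) = conj (evc u z) := by
  unfold evc
  simp

lemma evc_real (u : ℤ × ℤ × ℤ) (x : ℝ) : evc u (x : ℂ) = ((ev u x : ℝ) : ℂ) := by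
  unfold evc ev
  push_cast
  ring

/-- three small values -/
lemma det3c {x y z : ℂ} (hxy : x ≠ y) (hxz : x ≠ z) (hyz : y ≠ z) : ∃ c : ℝ, 0 < c ∧
    ∀ c' : ℝ, c' ≤ c → ∀ u : ℤ × ℤ × ℤ, 1 ≤ hn u → ‖evc u x‖ ≤ c' * hn u → ‖evc u y‖ ≤ c' * hn u →
      ‖evc u z‖ ≤ c' * hn u → False := by
  set d : ℂ := (x - y) * (x - z) * (y - z) with hd
  have hd0 : d ≠ 0 := mul_ne_zero (mul_ne_zero (sub_ne_zero.2 hxy) (sub_ne_zero.2 hxz))
    (sub_ne_zero.2 hyz)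
  set K : ℝ := 1 + (‖y - z‖ + ‖x - z‖ + ‖x - y‖) +
    (‖y ^ 2 - z ^ 2‖ + ‖x ^ 2 - z ^ 2‖ + ‖x ^ 2 - y ^ 2‖) +
    (‖y * z * (y - z)‖ + ‖x * z * (x - z)‖ + ‖x * y * (x - y)‖) with hK
  have hK0 : 0 < K := by positivity
  have hdp : 0 < ‖d‖ := norm_pos_iff.2 hd0
  refine ⟨‖d‖ / (2 * K), by positivity, fun c' hc' u hu h1 h2 h3 => ?_⟩
  have hH : (0 : ℝ) < hn u := by exact_mod_cast hu
  have hc : c' * hn u ≤ ‖d‖ / (2 * K) * hn u := mul_le_mul_of_nonneg_right hc' hH.le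
  set t : ℝ := ‖d‖ / (2 * K) * hn u with ht
  have h1' := h1.trans hc
  have h2' := h2.trans hc
  have h3' := h3.trans hc
  have ht0 : 0 < t := by positivity
  have key : ∀ A B C : ℂ, ‖A * evc u x + B * evc u y + C * evc u z‖ ≤ (‖A‖ + ‖B‖ + ‖C‖) * t := by
    intro A B C
    calc ‖A * evc u x + B * evc u y + C * evc u z‖ ≤
          ‖A * evc u x‖ + ‖B * evc u y‖ + ‖C * evc u z‖ := norm_add₃_le
      _ = ‖A‖ * ‖evc u x‖ + ‖B‖ * ‖evc u y‖ + ‖C‖ * ‖evc u z‖ := by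
          rw [norm_mul, norm_mul, norm_mul]
      _ ≤ ‖A‖ * t + ‖B‖ * t + ‖C‖ * t := by gcongr
      _ = _ := by ring
  have ha : |(u.1 : ℝ)| * ‖d‖ ≤ K * t := by
    rw [← Complex.norm_intCast, ← norm_mul]
    have : (u.1 : ℂ) * d = (y - z) * evc u x + (-(x - z)) * evc u y + (x - y) * evc u z := by
      rw [hd]; unfold evc; ring
    rw [this]
    refine (key _ _ _).trans (mul_le_mul_of_nonneg_right ?_ ht0.le)
    rw [norm_neg, hK]
    have e1 : 0 ≤ ‖y ^ 2 - z ^ 2‖ + ‖x ^ 2 - z ^ 2‖ + ‖x ^ 2 - y ^ 2‖ := by positivity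
    have e2 : 0 ≤ ‖y * z * (y - z)‖ + ‖x * z * (x - z)‖ + ‖x * y * (x - y)‖ := by positivity
    linarith
  have hb : |(u.2.1 : ℝ)| * ‖d‖ ≤ K * t := by
    rw [← Complex.norm_intCast, ← norm_mul]
    have : (u.2.1 : ℂ) * d = (-(y ^ 2 - z ^ 2)) * evc u x + (x ^ 2 - z ^ 2) * evc u y +
        (-(x ^ 2 - y ^ 2)) * evc u z := by
      rw [hd]; unfold evc; ring
    rw [this]
    refine (key _ _ _).trans (mul_le_mul_of_nonneg_right ?_ ht0.le)
    rw [norm_neg, norm_neg, hK]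
    have e1 : 0 ≤ ‖y - z‖ + ‖x - z‖ + ‖x - y‖ := by positivity
    have e2 : 0 ≤ ‖y * z * (y - z)‖ + ‖x * z * (x - z)‖ + ‖x * y * (x - y)‖ := by positivity
    linarith
  have hc3 : |(u.2.2 : ℝ)| * ‖d‖ ≤ K * t := by
    rw [← Complex.norm_intCast, ← norm_mul]
    have : (u.2.2 : ℂ) * d = (y * z * (y - z)) * evc u x + (-(x * z * (x - z))) * evc u y +
        (x * y * (x - y)) * evc u z := by
      rw [hd]; unfold evc; ring
    rw [this]
    refine (key _ _ _).trans (mul_le_mul_of_nonneg_right ?_ ht0.le)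
    rw [norm_neg, hK]
    have e1 : 0 ≤ ‖y - z‖ + ‖x - z‖ + ‖x - y‖ := by positivity
    have e2 : 0 ≤ ‖y ^ 2 - z ^ 2‖ + ‖x ^ 2 - z ^ 2‖ + ‖x ^ 2 - y ^ 2‖ := by positivity
    linarith
  have h4 : (hn u : ℝ) ≤ K * t / ‖d‖ := by
    refine hn_le ?_ ?_ ?_ <;> rw [le_div_iff₀ hdp] <;> assumption
  have h5 : K * t / ‖d‖ = hn u / 2 := by
    rw [ht]; field_simp
  rw [h5] at h4
  linarith

/-- the good tuples of complex numbers -/
def GoodC {s : ℕ} (β : Fin s → ℂ) : Prop :=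
  (∀ i, (β i).im ≠ 0) ∧ (∀ i j, i ≠ j → β i ≠ β j ∧ β i ≠ conj (β j)) ∧
  ∀ (n : ℕ) (i : Fin s), ∃ c : ℝ, 0 < c ∧ ∀ u : ℤ × ℤ × ℤ, ¬ IsSquare (ds u) →
      c * (hn u : ℝ) ^ (-(1 / ((n : ℝ) + 1))) * Real.sqrt (wt u) ≤ ‖evc u (β i)‖

lemma ae_evalC {s : ℕ} (i : Fin s) {P : ℂ → Prop} (h : ∀ᵐ x : ℂ, P x) :
    ∀ᵐ α : Fin s → ℂ, P (α i) :=
  (Measure.quasiMeasurePreserving_eval (μ := fun _ : Fin s => (volume : Measure ℂ)) i).ae h

lemma ae_im_ne {s : ℕ} {i j : Fin s} (hij : i ≠ j) : ∀ᵐ β : Fin s → ℂ, (β i).re ≠ (β j).re := by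
  classical
  set L : (Fin s → ℂ) →ₗ[ℝ] ℝ := Complex.reLm.comp (LinearMap.proj i : (Fin s → ℂ) →ₗ[ℝ] ℂ) -
    Complex.reLm.comp (LinearMap.proj j : (Fin s → ℂ) →ₗ[ℝ] ℂ) with hL
  have hsurj : Function.Surjective L := by
    intro a
    refine ⟨fun k => if k = i then (a : ℂ) else 0, ?_⟩
    rw [hL]
    simp [hij.symm]
  have h1 : ∀ᵐ y : ℝ, y ∈ ({0} : Set ℝ)ᶜ := by
    rw [ae_iff]
    simp
  have h2 := (ae_comp_linearMap_mem_iff L (volume : Measure (Fin s → ℂ))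
    (volume : Measure ℝ) hsurj (MeasurableSet.singleton (0 : ℝ)).compl).2 h1
  filter_upwards [h2] with α hα h
  apply hα
  rw [hL]
  simp [h]

theorem ae_goodC (s : ℕ) : ∀ᵐ β : Fin s → ℂ, GoodC β := by
  have h0 : ∀ᵐ β : Fin s → ℂ, ∀ i, (β i).im ≠ 0 := by
    rw [ae_all_iff]; intro i
    exact ae_evalC i ae_im
  have h1 : ∀ᵐ β : Fin s → ℂ, ∀ i j, i ≠ j → (β i).re ≠ (β j).re := by
    rw [ae_all_iff]; intro i
    rw [ae_all_iff]; intro j
    by_cases hij : i = j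
    · exact Eventually.of_forall fun α h => (h hij).elim
    · filter_upwards [ae_im_ne hij] with α hα _ using hα
  have h2 : ∀ᵐ β : Fin s → ℂ, ∀ (n : ℕ) (i : Fin s), ∃ c : ℝ, 0 < c ∧ ∀ u : ℤ × ℤ × ℤ,
      ¬ IsSquare (ds u) →
      c * (hn u : ℝ) ^ (-(1 / ((n : ℝ) + 1))) * Real.sqrt (wt u) ≤ ‖evc u (β i)‖ := by
    rw [ae_all_iff]; intro n
    rw [ae_all_iff]; intro i
    exact ae_evalC i (ae_c _ (by positivity))
  filter_upwards [h0, h1, h2] with β g0 g1 g2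
  refine ⟨g0, fun i j hij => ⟨fun h => g1 i j hij (by rw [h]), fun h => g1 i j hij ?_⟩, g2⟩
  rw [h]; simp

/-- two small values at complex points -/
lemma two_c {x y : ℂ} (hx : x.im ≠ 0) (hxy : x ≠ y) (hxy' : x ≠ conj y) : ∃ c : ℝ, 0 < c ∧
    ∀ c' : ℝ, c' ≤ c → ∀ u : ℤ × ℤ × ℤ, 1 ≤ hn u → ‖evc u x‖ ≤ c' * hn u →
      ‖evc u y‖ ≤ c' * hn u → False := by
  have h1 : x ≠ conj x := by
    intro h
    have := congrArg Complex.im h
    rw [Complex.conj_im] at this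
    apply hx
    linarith
  have h2 : conj x ≠ y := by
    intro h
    apply hxy'
    rw [← h, Complex.conj_conj]
  obtain ⟨c, hc, h⟩ := det3c h1 hxy h2
  refine ⟨c, hc, fun c' hc' u hu e1 e2 => h c' hc' u hu e1 ?_ e2⟩
  rw [evc_conj, Complex.norm_conj]
  exact e1

lemma sum_big {s : ℕ} (g : Fin s → ℝ) (κ H : ℝ) (hκ : 0 < κ) (hH : 0 < H)
    (h : ∀ j, κ * H ≤ g j) : (s : ℝ) * (Real.log κ + Real.log H) ≤ ∑ j, Real.log (g j) := by
  have h1 : ∀ j ∈ (Finset.univ : Finset (Fin s)), Real.log κ + Real.log H ≤ Real.log (g j) :=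
    fun j _ => log_low hκ hH (h j)
  have := Finset.sum_le_sum h1
  rw [Finset.sum_const, Finset.card_univ, Fintype.card_fin, nsmul_eq_mul] at this
  exact this

/-- the sum of the logarithms of the values at complex points -/
theorem sum_c {s : ℕ} {β : Fin s → ℂ} (h : GoodC β) (ε : ℝ) (hε : 0 < ε) :
    ∃ C : ℝ, ∀ u : ℤ × ℤ × ℤ, ¬ IsSquare (ds u) →
      (∀ j, evc u (β j) ≠ 0) ∧ ((s : ℝ) - 1 - ε) * Real.log (hn u) + 1 / 2 * Real.log (wt u) - C ≤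
        ∑ j, Real.log ‖evc u (β j)‖ := by
  classical
  obtain ⟨him, hne, hg⟩ := h
  obtain ⟨n, hn'⟩ := exists_nat_one_div_lt hε
  choose c hc hone using hg n
  have g2 : ∀ p : Fin s × Fin s, ∃ e : ℝ, 0 < e ∧ (p.1 ≠ p.2 → ∀ c' : ℝ, c' ≤ e →
      ∀ u : ℤ × ℤ × ℤ, 1 ≤ hn u → ‖evc u (β p.1)‖ ≤ c' * hn u →
      ‖evc u (β p.2)‖ ≤ c' * hn u → False) := by
    intro p
    by_cases hp : p.1 = p.2
    · exact ⟨1, one_pos, fun h => (h hp).elim⟩
    · obtain ⟨e, h1, h2⟩ := two_c (him p.1) (hne _ _ hp).1 (hne _ _ hp).2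
      exact ⟨e, h1, fun _ => h2⟩
  choose e he htwo using g2
  obtain ⟨a3, ha3, ha3'⟩ := exists_pos_le e he
  obtain ⟨a4, ha4, ha4'⟩ := exists_pos_le c hc
  set κ : ℝ := min a3 1 with hκ
  have hκ0 : 0 < κ := by rw [hκ]; positivity
  have hκ3 : κ ≤ a3 := min_le_left _ _
  have hκ11 : κ ≤ 1 := min_le_right _ _
  have hlκ : Real.log κ ≤ 0 := Real.log_nonpos hκ0.le hκ11
  set C : ℝ := (s : ℝ) * (-Real.log κ) + |Real.log a4| with hC
  refine ⟨C, fun u hu => ?_⟩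
  have hn1 : (1 : ℝ) ≤ hn u := by exact_mod_cast one_le_hn hu
  have hL : 0 ≤ Real.log (hn u) := Real.log_nonneg hn1
  have hw := wt_pos u
  have hsw : 0 < Real.sqrt (wt u) := Real.sqrt_pos.2 hw
  have hlw : Real.log (wt u) ≤ 0 := Real.log_nonpos hw.le (wt_le u)
  have hH0 : (0 : ℝ) < hn u := by linarith
  have hev : ∀ j, 0 < ‖evc u (β j)‖ := fun j =>
    lt_of_lt_of_le (by have := hc j; positivity) (hone j u hu)
  refine ⟨fun j => norm_pos_iff.1 (hev j), ?_⟩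
  have hs0 : (0 : ℝ) ≤ s := Nat.cast_nonneg s
  have habs4 := neg_abs_le (Real.log a4)
  have hA4 := abs_nonneg (Real.log a4)
  by_cases hsmall : ∃ i, ‖evc u (β i)‖ ≤ κ * hn u
  · obtain ⟨i, hi⟩ := hsmall
    have hs1 : 1 ≤ s := by have := i.2; omega
    have hrest : ∀ l ∈ Finset.univ.erase i, Real.log κ + Real.log (hn u) ≤
        Real.log ‖evc u (β l)‖ := by
      intro l hl
      apply log_low hκ0 hH0
      by_contra hl'
      push Not at hl'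
      exact htwo (i, l) (Finset.ne_of_mem_erase hl).symm κ (hκ3.trans (ha3' _)) u (one_le_hn hu)
        hi hl'.le
    have hp2 : Real.log a4 + (-(1 / ((n : ℝ) + 1))) * Real.log (hn u) + 1 / 2 * Real.log (wt u) ≤
        Real.log ‖evc u (β i)‖ := by
      have e1 : 1 / 2 * Real.log (wt u) = Real.log (Real.sqrt (wt u)) := by
        rw [Real.log_sqrt hw.le]; ring
      rw [e1, ← Real.log_rpow hH0,
        ← Real.log_mul ha4.ne' (Real.rpow_pos_of_pos hH0 _).ne',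
        ← Real.log_mul (by positivity) hsw.ne']
      refine Real.log_le_log (by positivity) (le_trans ?_ (hone i u hu))
      apply mul_le_mul_of_nonneg_right _ hsw.le
      exact mul_le_mul_of_nonneg_right (ha4' _) (by positivity)
    have hcard : ((Finset.univ.erase i : Finset (Fin s)).card : ℝ) = s - 1 := by
      rw [Finset.card_erase_of_mem (Finset.mem_univ _), Finset.card_univ, Fintype.card_fin]
      rw [Nat.cast_sub (by omega)]
      push_cast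
      ring
    have hsum := Finset.sum_le_sum hrest
    rw [Finset.sum_const, nsmul_eq_mul, hcard] at hsum
    rw [← Finset.add_sum_erase _ _ (Finset.mem_univ i)]
    have hε' : -(ε * Real.log (hn u)) ≤ -(1 / ((n : ℝ) + 1)) * Real.log (hn u) := by
      nlinarith
    have hs1' : (1 : ℝ) ≤ s := by exact_mod_cast hs1
    have hk : ((s : ℝ) - 1) * Real.log κ ≥ s * Real.log κ := by nlinarith
    nlinarith
  · push Not at hsmall
    have hsum := sum_big (fun j => ‖evc u (β j)‖) κ (hn u) hκ0 hH0 (fun j => (hsmall j).le)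
    nlinarith [mul_nonneg hε.le hL]

/-- **The sum of the logarithms of the values, for real and complex points.** -/
theorem sum_all {r s : ℕ} {α : Fin r → ℝ} {β : Fin s → ℂ} (hα : Good α) (hβ : GoodC β)
    (ε : ℝ) (hε : 0 < ε) : ∃ C : ℝ, ∀ u : ℤ × ℤ × ℤ, ¬ IsSquare (ds u) →
      (∀ j, ev u (α j) ≠ 0) ∧ (∀ j, evc u (β j) ≠ 0) ∧
      ((r : ℝ) + 2 * s - 2 - ε) * Real.log (hn u) + Real.log (wt u) - C ≤
        ∑ j, Real.log |ev u (α j)| + 2 * ∑ j, Real.log ‖evc u (β j)‖ := by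
  classical
  obtain ⟨C1, h1⟩ := sum_quad hα ε hε
  obtain ⟨C2, h2⟩ := sum_c hβ (ε / 2) (by positivity)
  have g2 : ∀ p : Fin s × Fin r, ∃ e : ℝ, 0 < e ∧ (∀ c' : ℝ, c' ≤ e →
      ∀ u : ℤ × ℤ × ℤ, 1 ≤ hn u → ‖evc u (β p.1)‖ ≤ c' * hn u →
      |ev u (α p.2)| ≤ c' * hn u → False) := by
    intro p
    have him := hβ.1 p.1
    have e1 : β p.1 ≠ (α p.2 : ℂ) := by
      intro h
      rw [h] at him
      simp at him
    obtain ⟨e, h1, h2⟩ := two_c him e1 (by rw [Complex.conj_ofReal]; exact e1)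
    refine ⟨e, h1, fun c' hc' u hu k1 k2 => h2 c' hc' u hu k1 ?_⟩
    rw [evc_real, Complex.norm_real, Real.norm_eq_abs]
    exact k2
  choose e he hmix using g2
  obtain ⟨a3, ha3, ha3'⟩ := exists_pos_le e he
  set κ : ℝ := min a3 1 with hκ
  have hκ0 : 0 < κ := by rw [hκ]; positivity
  have hκ3 : κ ≤ a3 := min_le_left _ _
  have hκ11 : κ ≤ 1 := min_le_right _ _
  have hlκ : Real.log κ ≤ 0 := Real.log_nonpos hκ0.le hκ11
  refine ⟨|C1| + 2 * |C2| + (r + 2 * s) * (-Real.log κ), fun u hu => ?_⟩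
  obtain ⟨k1, k2⟩ := h1 u hu
  obtain ⟨k3, k4⟩ := h2 u hu
  refine ⟨k1, k3, ?_⟩
  have hn1 : (1 : ℝ) ≤ hn u := by exact_mod_cast one_le_hn hu
  have hL : 0 ≤ Real.log (hn u) := Real.log_nonneg hn1
  have hw := wt_pos u
  have hlw : Real.log (wt u) ≤ 0 := Real.log_nonpos hw.le (wt_le u)
  have hH0 : (0 : ℝ) < hn u := by linarith
  have hs0 : (0 : ℝ) ≤ s := Nat.cast_nonneg s
  have hr0 : (0 : ℝ) ≤ r := Nat.cast_nonneg r
  have b1 := le_abs_self C1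
  have b2 := le_abs_self C2
  have b3 := abs_nonneg C1
  have b4 := abs_nonneg C2
  by_cases hsmall : ∃ i, ‖evc u (β i)‖ ≤ κ * hn u
  · obtain ⟨i, hi⟩ := hsmall
    have hbig := sum_big (fun j => |ev u (α j)|) κ (hn u) hκ0 hH0 (fun j => by
      by_contra hl'
      push Not at hl'
      exact hmix (i, j) κ (hκ3.trans (ha3' _)) u (one_le_hn hu) hi hl'.le)
    have e1 : 0 ≤ (s : ℝ) * -Real.log κ := mul_nonneg hs0 (by linarith)
    nlinarith
  · push Not at hsmall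
    have hsum := sum_big (fun j => ‖evc u (β j)‖) κ (hn u) hκ0 hH0 (fun j => (hsmall j).le)
    have e1 : 0 ≤ (r : ℝ) * -Real.log κ := mul_nonneg hr0 (by linarith)
    nlinarith

/-- linear polynomials at a complex point -/
lemma lin_c {z : ℂ} (hz : z.im ≠ 0) : ∃ κ : ℝ, 0 < κ ∧ ∀ v : ℤ × ℤ,
    κ * ln v ≤ ‖(v.1 : ℂ) * z + v.2‖ := by
  have hs0 : 0 < |z.im| := abs_pos.2 hz
  refine ⟨|z.im| / (1 + |z.im| + ‖z‖), by positivity, fun v => ?_⟩
  set N : ℝ := ‖(v.1 : ℂ) * z + v.2‖ with hN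
  have h1 : |(v.1 : ℝ)| * |z.im| ≤ N := by
    have h2 := Complex.abs_im_le_norm ((v.1 : ℂ) * z + v.2)
    have h3 : ((v.1 : ℂ) * z + v.2).im = (v.1 : ℝ) * z.im := by simp
    rw [h3, abs_mul] at h2
    exact h2
  have h2 : |(v.2 : ℝ)| ≤ N + |(v.1 : ℝ)| * ‖z‖ := by
    have e : (v.2 : ℂ) = ((v.1 : ℂ) * z + v.2) - (v.1 : ℂ) * z := by ring
    rw [← Complex.norm_intCast, e]
    refine (norm_sub_le _ _).trans ?_
    rw [norm_mul, Complex.norm_intCast]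
  have hz0 := norm_nonneg z
  have hN0 : 0 ≤ N := norm_nonneg _
  have h : ∀ a : ℤ, |(a : ℝ)| = (a.natAbs : ℝ) := by
    intro a
    rw [Nat.cast_natAbs]; push_cast; rfl
  have hln : (ln v : ℝ) = max |(v.1 : ℝ)| |(v.2 : ℝ)| := by
    unfold ln
    push_cast
    rw [h, h]
  rw [hln, div_mul_eq_mul_div, div_le_iff₀ (by positivity)]
  have e1 : |z.im| * |(v.1 : ℝ)| ≤ N * (1 + |z.im| + ‖z‖) := by
    have : 0 ≤ N * (|z.im| + ‖z‖) := by positivity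
    nlinarith
  have e2 : |z.im| * |(v.2 : ℝ)| ≤ N * (1 + |z.im| + ‖z‖) := by
    calc |z.im| * |(v.2 : ℝ)| ≤ |z.im| * (N + |(v.1 : ℝ)| * ‖z‖) :=
          mul_le_mul_of_nonneg_left h2 hs0.le
      _ = |z.im| * N + (|(v.1 : ℝ)| * |z.im|) * ‖z‖ := by ring
      _ ≤ |z.im| * N + N * ‖z‖ := by
          have := mul_le_mul_of_nonneg_right h1 hz0
          linarith
      _ ≤ _ := by nlinarith
  rcases max_cases |(v.1 : ℝ)| |(v.2 : ℝ)| with h3 | h3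
  · rw [h3.1]; exact e1
  · rw [h3.1]; exact e2

/-- **Linear polynomials, for real and complex points.** -/
theorem sum_all_lin {r s : ℕ} {α : Fin r → ℝ} {β : Fin s → ℂ} (hα : Good α) (hβ : GoodC β)
    (ε : ℝ) (hε : 0 < ε) : ∃ C : ℝ, ∀ v : ℤ × ℤ, v.1 ≠ 0 →
      (∀ j, (v.1 : ℝ) * α j + v.2 ≠ 0) ∧ (∀ j, (v.1 : ℂ) * β j + v.2 ≠ 0) ∧
      ((r : ℝ) + 2 * s - 2 - ε) * Real.log (ln v) - C ≤
        ∑ j, Real.log |(v.1 : ℝ) * α j + v.2| + 2 * ∑ j, Real.log ‖(v.1 : ℂ) * β j + v.2‖ := by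
  classical
  obtain ⟨C1, h1⟩ := sum_lin hα ε hε
  choose κ' hκ' hlin using fun j => lin_c (hβ.1 j)
  obtain ⟨κ, hκ0, hκ⟩ := exists_pos_le κ' hκ'
  refine ⟨C1 - 2 * s * Real.log κ, fun v hv => ?_⟩
  obtain ⟨k1, k2⟩ := h1 v hv
  have hln : 1 ≤ ln v := le_max_of_le_left (Int.natAbs_pos.2 hv)
  have hln0 : (0 : ℝ) < ln v := by exact_mod_cast hln
  have h3 : ∀ j, κ * ln v ≤ ‖(v.1 : ℂ) * β j + v.2‖ := fun j =>
    (mul_le_mul_of_nonneg_right (hκ j) hln0.le).trans (hlin j v)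
  refine ⟨k1, fun j => norm_pos_iff.1 (lt_of_lt_of_le (by positivity) (h3 j)), ?_⟩
  have h4 := sum_big (fun j => ‖(v.1 : ℂ) * β j + v.2‖) κ (ln v) hκ0 hln0 h3
  nlinarith

end Pool.Agent.X124.MC
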