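import Mathlib
import Pool.Agent.X124.MC.Sum

set_option autoImplicit false

/-!
From the values of the minimal polynomial to the proximity function, for real points and pairs of
conjugate complex points.
-/

namespace Pool.Agent.X124.MC

open Polynomial Finset IntermediateField Pool.Agent.H813R3.Voj Pool.Agent.H990R4.VJ
  Pool.Agent.W226.VQ Pool.Agent.X124.MV ComplexConjugate

lemma norm_evalC (f : ℤ[X]) (w : ℂ) : ‖aeval w f‖ = |(f.leadingCoeff : ℝ)| *
    ((f.map (Int.castRingHom ℂ)).roots.map fun z => ‖z - w‖).prod := by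
  have h1 : ‖(f.map (Int.castRingHom ℂ)).eval w‖ = ‖aeval w f‖ := by
    rw [eval_map]
    rfl
  rw [← h1]
  have h2 := (IsAlgClosed.splits (f.map (Int.castRingHom ℂ))).eq_prod_roots
  have h3 := congrArg (fun p => ‖p.eval w‖) h2
  rw [h3, eval_mul, eval_C, norm_mul, eval_multiset_prod, Multiset.map_map,
    leadingCoeff_map_of_injective (RingHom.injective_int _)]
  congr 1
  · simp
  · have h5 := map_multiset_prod (normHom : ℂ →*₀ ℝ)
      ((f.map (Int.castRingHom ℂ)).roots.map fun z => (X - C z).eval w)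
    rw [Multiset.map_map] at h5
    have h6 : Multiset.map (fun z : ℂ => ‖(X - C z).eval w‖)
        (f.map (Int.castRingHom ℂ)).roots =
        Multiset.map (fun z : ℂ => ‖z - w‖) (f.map (Int.castRingHom ℂ)).roots := by
      refine Multiset.map_congr rfl fun z _ => ?_
      rw [eval_sub, eval_X, eval_C]
      exact norm_sub_rev w z
    exact h5.trans (congrArg Multiset.prod h6)

/-- the sum of the local heights over the conjugates -/
theorem prox_c (f : ℤ[X]) (hf : f ≠ 0) (w : ℂ) (hw : aeval w f ≠ 0) :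
    ((f.map (Int.castRingHom ℂ)).roots.map fun z =>
      Real.log (max 1 ‖z‖ * max 1 ‖w‖ / ‖z - w‖)).sum =
      Real.log (mm f) + f.natDegree * Real.log (max 1 ‖w‖) - Real.log ‖aeval w f‖ := by
  have hl : (0 : ℝ) < |(f.leadingCoeff : ℝ)| :=
    abs_pos.2 (by exact_mod_cast leadingCoeff_ne_zero.2 hf)
  have hm0 : ∀ z : ℂ, max 1 ‖z‖ ≠ 0 := fun z => (lt_of_lt_of_le one_pos (le_max_left _ _)).ne'
  have ha0 : max 1 ‖w‖ ≠ 0 := (lt_of_lt_of_le one_pos (le_max_left _ _)).ne'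
  have hE := norm_evalC f w
  have hG0 : ∀ z ∈ (f.map (Int.castRingHom ℂ)).roots, ‖z - w‖ ≠ 0 := by
    intro z hz h0
    have hp : ((f.map (Int.castRingHom ℂ)).roots.map fun z => ‖z - w‖).prod = 0 :=
      Multiset.prod_eq_zero (Multiset.mem_map.2 ⟨z, hz, h0⟩)
    rw [hp, mul_zero, norm_eq_zero] at hE
    exact hw hE
  have hcard : (f.map (Int.castRingHom ℂ)).roots.card = f.natDegree := by
    rw [← (IsAlgClosed.splits (f.map (Int.castRingHom ℂ))).natDegree_eq_card_roots,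
      natDegree_map_eq_of_injective (RingHom.injective_int _)]
  have e1 : ((f.map (Int.castRingHom ℂ)).roots.map fun z =>
      Real.log (max 1 ‖z‖ * max 1 ‖w‖ / ‖z - w‖)).sum =
      ((f.map (Int.castRingHom ℂ)).roots.map fun z => Real.log (max 1 ‖z‖)).sum +
      ((f.map (Int.castRingHom ℂ)).roots.map fun _ => Real.log (max 1 ‖w‖)).sum -
      ((f.map (Int.castRingHom ℂ)).roots.map fun z => Real.log ‖z - w‖).sum := by
    rw [← Multiset.sum_map_add, ← Multiset.sum_map_sub]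
    refine congrArg _ (Multiset.map_congr rfl fun z hz => ?_)
    rw [Real.log_div (mul_ne_zero (hm0 z) ha0) (hG0 z hz), Real.log_mul (hm0 z) ha0]
  have e2 : Real.log (((f.map (Int.castRingHom ℂ)).roots.map fun z => max 1 ‖z‖).prod) =
      ((f.map (Int.castRingHom ℂ)).roots.map fun z => Real.log (max 1 ‖z‖)).sum := by
    rw [Real.log_multiset_prod, Multiset.map_map]
    · rfl
    · intro x hx h0
      obtain ⟨z, _, hz⟩ := Multiset.mem_map.1 hx
      exact hm0 z (hz.trans h0)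
  have e3 : Real.log (((f.map (Int.castRingHom ℂ)).roots.map fun z => ‖z - w‖).prod) =
      ((f.map (Int.castRingHom ℂ)).roots.map fun z => Real.log ‖z - w‖).sum := by
    rw [Real.log_multiset_prod, Multiset.map_map]
    · rfl
    · intro x hx h0
      obtain ⟨z, hz', hz⟩ := Multiset.mem_map.1 hx
      exact hG0 z hz' (hz.trans h0)
  have e4 : ((f.map (Int.castRingHom ℂ)).roots.map fun _ => Real.log (max 1 ‖w‖)).sum =
      f.natDegree * Real.log (max 1 ‖w‖) := by
    rw [Multiset.map_const', Multiset.sum_replicate, hcard, nsmul_eq_mul]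
  have hp1 : ((f.map (Int.castRingHom ℂ)).roots.map fun z => max 1 ‖z‖).prod ≠ 0 := by
    intro h0
    obtain ⟨z, _, hz⟩ := Multiset.mem_map.1 (Multiset.prod_eq_zero_iff.1 h0)
    exact hm0 z hz
  have hp2 : ((f.map (Int.castRingHom ℂ)).roots.map fun z => ‖z - w‖).prod ≠ 0 := by
    intro h0
    obtain ⟨z, hz', hz⟩ := Multiset.mem_map.1 (Multiset.prod_eq_zero_iff.1 h0)
    exact hG0 z hz' hz
  rw [e1, e4, ← e2, ← e3, mm_eq, hE, Real.log_mul hl.ne' hp1, Real.log_mul hl.ne' hp2]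
  ring

lemma aeval_conj' (f : ℤ[X]) (w : ℂ) : aeval (conj w) f = conj (aeval w f) := by
  have h : conj w = (Complex.conjAe : ℂ ≃ₐ[ℝ] ℂ) w := rfl
  have h2 : aeval (conj w) f = (starRingEnd ℂ) (aeval w f) := by
    have := Polynomial.hom_eval₂ f (algebraMap ℤ ℂ) (starRingEnd ℂ) w
    rw [aeval_def, aeval_def, this]
    congr 1
    exact RingHom.ext_int _ _
  exact h2

/-- the function of the roots -/
noncomputable def gg {r s : ℕ} (α : Fin r → ℝ) (β : Fin s → ℂ) (z : ℂ) : ℝ :=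
  ∑ j, Real.log (max 1 ‖z‖ * max 1 |α j| / ‖z - (α j : ℂ)‖) +
    ∑ j, (Real.log (max 1 ‖z‖ * max 1 ‖β j‖ / ‖z - β j‖) +
      Real.log (max 1 ‖z‖ * max 1 ‖β j‖ / ‖z - conj (β j)‖))

/-- the constant -/
noncomputable def AA {r s : ℕ} (α : Fin r → ℝ) (β : Fin s → ℂ) : ℝ :=
  ∑ j, Real.log (max 1 |α j|) + 2 * ∑ j, Real.log (max 1 ‖β j‖)

/-- the sum over the conjugates of the sum over the points -/
theorem prox_all {r s : ℕ} (f : ℤ[X]) (hf : f ≠ 0) (α : Fin r → ℝ) (β : Fin s → ℂ)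
    (hα : ∀ j, aeval (α j) f ≠ 0) (hβ : ∀ j, aeval (β j) f ≠ 0) :
    ((f.map (Int.castRingHom ℂ)).roots.map (gg α β)).sum =
      ((r : ℝ) + 2 * s) * Real.log (mm f) + f.natDegree * AA α β -
        (∑ j, Real.log |aeval (α j) f| + 2 * ∑ j, Real.log ‖aeval (β j) f‖) := by
  have hc : ∀ j, aeval (conj (β j)) f ≠ 0 := by
    intro j h
    rw [aeval_conj', map_eq_zero] at h
    exact hβ j h
  have h1 := prox_sum f hf α hα
  have h2 : ∀ g : Fin s → ℂ → ℝ, ((f.map (Int.castRingHom ℂ)).roots.map fun z => ∑ j, g j z).sum =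
      ∑ j, ((f.map (Int.castRingHom ℂ)).roots.map fun z => g j z).sum := by
    intro g
    exact Multiset.sum_map_sum_map (f.map (Int.castRingHom ℂ)).roots
      (Finset.univ : Finset (Fin s)).1 (f := fun z j => g j z)
  unfold gg
  rw [Multiset.sum_map_add, h1, h2]
  have h3 : ∀ j, ((f.map (Int.castRingHom ℂ)).roots.map fun z =>
      (Real.log (max 1 ‖z‖ * max 1 ‖β j‖ / ‖z - β j‖) +
        Real.log (max 1 ‖z‖ * max 1 ‖β j‖ / ‖z - conj (β j)‖))).sum =
      2 * (Real.log (mm f) + f.natDegree * Real.log (max 1 ‖β j‖) -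
        Real.log ‖aeval (β j) f‖) := by
    intro j
    have k1 := prox_c f hf (β j) (hβ j)
    have k2 := prox_c f hf (conj (β j)) (hc j)
    rw [Complex.norm_conj, aeval_conj', Complex.norm_conj] at k2
    rw [Multiset.sum_map_add, k1, k2]
    ring
  rw [Finset.sum_congr rfl fun j _ => h3 j, ← Finset.mul_sum, Finset.sum_sub_distrib,
    Finset.sum_add_distrib, Finset.sum_const, Finset.card_univ, Fintype.card_fin, nsmul_eq_mul,
    ← Finset.mul_sum]
  unfold AA
  ring

lemma evc_cu (f : ℤ[X]) (hf : f.natDegree ≤ 2) (z : ℂ) : evc (cu f) z = aeval z f := by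
  rw [aeval_eq_sum_range' (n := 3) (by omega)]
  unfold evc cu
  simp only [Finset.sum_range_succ, Finset.range_zero, Finset.sum_empty, zsmul_eq_mul]
  ring

/-- **quadratic points** -/
theorem quad_all {r s : ℕ} {α : Fin r → ℝ} {β : Fin s → ℂ} (hα : Good α) (hβ : GoodC β)
    (ε : ℝ) (hε : 0 < ε) :
    ∃ C : ℝ, ∀ (x : ℂ) (f : ℤ[X]), Irreducible f → f.natDegree = 2 → aeval x f = 0 →
      (∀ j, aeval (α j) f ≠ 0) ∧ (∀ j, aeval (β j) f ≠ 0) ∧
      ((f.map (Int.castRingHom ℂ)).roots.map (gg α β)).sum ≤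
        (2 + ε) * Real.log (mm f) + lD x + C := by
  obtain ⟨C, hC⟩ := sum_all hα hβ ε hε
  set q : ℝ := (r : ℝ) + 2 * s with hq
  refine ⟨2 * AA α β + C + |q - 2 - ε| * Real.log 4, fun x f hf hd hx => ?_⟩
  obtain ⟨h0, h0', h1⟩ := hC (cu f) (not_sq hf hd)
  have hev : ∀ j, aeval (α j) f ≠ 0 := fun j => by rw [← ev_cu f hd.le]; exact h0 j
  have hevc : ∀ j, aeval (β j) f ≠ 0 := fun j => by rw [← evc_cu f hd.le]; exact h0' j
  refine ⟨hev, hevc, ?_⟩
  rw [prox_all f hf.ne_zero α β hev hevc, ← hq]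
  have h2 : ∑ j, Real.log |ev (cu f) (α j)| = ∑ j, Real.log |aeval (α j) f| :=
    Finset.sum_congr rfl fun j _ => by rw [ev_cu f hd.le]
  have h2' : ∑ j, Real.log ‖evc (cu f) (β j)‖ = ∑ j, Real.log ‖aeval (β j) f‖ :=
    Finset.sum_congr rfl fun j _ => by rw [evc_cu f hd.le]
  rw [h2, h2', log_wt, ds_cu] at h1
  have h3 : Real.log (op (dsc (cv f)).natAbs) ≤ 2 * lD x := log_op_le f hf hd x hx
  have hm : 0 < mm f := lt_of_lt_of_le one_pos (one_le_mm hf.ne_zero)
  have hn1 : (0 : ℝ) < hn (cu f) := by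
    exact_mod_cast one_le_hn (not_sq hf hd)
  have h4 := log_comp hn1 hm (by norm_num) (hn_le_mm f hd)
  have h5 := log_comp hm hn1 (by norm_num) (mm_le_hn f hd.le)
  have h6 : Real.log 3 ≤ Real.log 4 := Real.log_le_log (by norm_num) (by norm_num)
  have h7 : |Real.log (hn (cu f)) - Real.log (mm f)| ≤ Real.log 4 := by
    rw [abs_le]; constructor <;> linarith
  have h8 : -(|q - 2 - ε| * Real.log 4) ≤
      (q - 2 - ε) * (Real.log (hn (cu f)) - Real.log (mm f)) := by
    have h9 := neg_abs_le ((q - 2 - ε) * (Real.log (hn (cu f)) - Real.log (mm f)))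
    rw [abs_mul] at h9
    have h10 := mul_le_mul_of_nonneg_left h7 (abs_nonneg (q - 2 - ε))
    linarith
  rw [hd]
  push_cast
  nlinarith

/-- **rational points** -/
theorem lin_all {r s : ℕ} {α : Fin r → ℝ} {β : Fin s → ℂ} (hα : Good α) (hβ : GoodC β)
    (ε : ℝ) (hε : 0 < ε) :
    ∃ C : ℝ, ∀ f : ℤ[X], f.natDegree = 1 →
      (∀ j, aeval (α j) f ≠ 0) ∧ (∀ j, aeval (β j) f ≠ 0) ∧
      ((f.map (Int.castRingHom ℂ)).roots.map (gg α β)).sum ≤
        (2 + ε) * Real.log (mm f) + C := by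
  obtain ⟨C, hC⟩ := sum_all_lin hα hβ ε hε
  set q : ℝ := (r : ℝ) + 2 * s with hq
  refine ⟨AA α β + C + |q - 2 - ε| * Real.log 4, fun f hd => ?_⟩
  have hf0 : f ≠ 0 := by rintro rfl; simp at hd
  have hlc : f.coeff 1 ≠ 0 := by
    rw [← hd, coeff_natDegree, leadingCoeff_ne_zero]; exact hf0
  obtain ⟨h0, h0', h1⟩ := hC (f.coeff 1, f.coeff 0) hlc
  simp only at h0 h0' h1
  have hev' : ∀ j, aeval (α j) f = (f.coeff 1 : ℝ) * α j + f.coeff 0 := by
    intro j
    rw [aeval_eq_sum_range' (n := 2) (by omega)]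
    simp only [Finset.sum_range_succ, Finset.range_zero, Finset.sum_empty, zsmul_eq_mul]
    ring
  have hevc' : ∀ j, aeval (β j) f = (f.coeff 1 : ℂ) * β j + f.coeff 0 := by
    intro j
    rw [aeval_eq_sum_range' (n := 2) (by omega)]
    simp only [Finset.sum_range_succ, Finset.range_zero, Finset.sum_empty, zsmul_eq_mul]
    ring
  have hev : ∀ j, aeval (α j) f ≠ 0 := fun j => by rw [hev' j]; exact h0 j
  have hevc : ∀ j, aeval (β j) f ≠ 0 := fun j => by rw [hevc' j]; exact h0' j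
  refine ⟨hev, hevc, ?_⟩
  rw [prox_all f hf0 α β hev hevc, ← hq]
  have h2 : ∑ j, Real.log |(f.coeff 1 : ℝ) * α j + f.coeff 0| =
      ∑ j, Real.log |aeval (α j) f| :=
    Finset.sum_congr rfl fun j _ => by rw [hev' j]
  have h2' : ∑ j, Real.log ‖(f.coeff 1 : ℂ) * β j + f.coeff 0‖ =
      ∑ j, Real.log ‖aeval (β j) f‖ :=
    Finset.sum_congr rfl fun j _ => by rw [hevc' j]
  rw [h2, h2'] at h1
  have hm : 0 < mm f := lt_of_lt_of_le one_pos (one_le_mm hf0)
  have hn1 : (0 : ℝ) < ln (f.coeff 1, f.coeff 0) := by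
    have : 1 ≤ ln (f.coeff 1, f.coeff 0) := le_max_of_le_left (Int.natAbs_pos.2 hlc)
    exact_mod_cast this
  obtain ⟨l1, l2⟩ := ln_mm f hd
  have h4 := log_comp hn1 hm (by norm_num) l1
  have h5 := log_comp hm hn1 (by norm_num) l2
  have h6 : Real.log 3 ≤ Real.log 4 := Real.log_le_log (by norm_num) (by norm_num)
  have h6' : Real.log 2 ≤ Real.log 4 := Real.log_le_log (by norm_num) (by norm_num)
  have h7 : |Real.log (ln (f.coeff 1, f.coeff 0)) - Real.log (mm f)| ≤ Real.log 4 := by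
    rw [abs_le]; constructor <;> linarith
  have h8 : -(|q - 2 - ε| * Real.log 4) ≤
      (q - 2 - ε) * (Real.log (ln (f.coeff 1, f.coeff 0)) - Real.log (mm f)) := by
    have h9 := neg_abs_le ((q - 2 - ε) *
      (Real.log (ln (f.coeff 1, f.coeff 0)) - Real.log (mm f)))
    rw [abs_mul] at h9
    have h10 := mul_le_mul_of_nonneg_left h7 (abs_nonneg (q - 2 - ε))
    linarith
  rw [hd]
  push_cast
  nlinarith

end Pool.Agent.X124.MC
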