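import Mathlib
import Pool.Agent.X124.MV.Sharp2
import Pool.Agent.X124.MC.Fin

set_option autoImplicit false

/-!
Sharpness: quadratic points close to a given complex point.
-/

namespace Pool.Agent.X124.MC

open Polynomial Finset IntermediateField Pool.Agent.H990R4.VJ
  Pool.Agent.W226.VQ Pool.Agent.X124.MV ComplexConjugate

/-- an auxiliary form of the pigeonhole principle -/
lemma floor_close {a b c : ℝ} (hc : 0 < c) (ha : 0 ≤ a * c) (hb : 0 ≤ b * c)
    (h : ⌊a * c⌋₊ = ⌊b * c⌋₊) : |a - b| ≤ 1 / c := by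
  have e1 := Nat.floor_le ha
  have e2 := Nat.lt_floor_add_one (a * c)
  have e3 := Nat.floor_le hb
  have e4 := Nat.lt_floor_add_one (b * c)
  have e5 : (⌊a * c⌋₊ : ℝ) = ⌊b * c⌋₊ := by rw [h]
  rw [le_div_iff₀ hc]
  have e6 : |a - b| * c = |a * c - b * c| := by
    rw [← sub_mul, abs_mul, abs_of_pos hc]
  rw [e6, abs_le]
  constructor <;> linarith

/-- small values of quadratic polynomials at a complex number -/
lemma dirichlet_c (z : ℂ) (n : ℕ) (hn1 : 1 ≤ n) : ∃ u : ℤ × ℤ × ℤ, u ≠ 0 ∧ hn u ≤ n ^ 2 ∧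
    ‖evc u z‖ ≤ 4 * (2 + ‖z‖ + ‖z‖ ^ 2) / n := by
  have hn0 : (0 : ℝ) < n := by exact_mod_cast hn1
  set A : ℝ := 2 + ‖z‖ + ‖z‖ ^ 2 with hA
  have hz0 := norm_nonneg z
  have hA0 : 0 < A := by positivity
  set v : ℕ × ℕ × ℕ → ℂ := fun p => (p.1 : ℂ) * z ^ 2 + p.2.1 * z + p.2.2 with hv
  set c : ℝ := n / (2 * A) with hc
  have hc0 : 0 < c := by positivity
  set g : ℕ × ℕ × ℕ → ℕ × ℕ := fun p =>
    (⌊((v p).re + A * n ^ 2) * c⌋₊, ⌊((v p).im + A * n ^ 2) * c⌋₊) with hg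
  have hbd : ∀ p ∈ (range (n ^ 2 + 1) ×ˢ (range (n ^ 2 + 1) ×ˢ range (n ^ 2 + 1)) :
      Finset (ℕ × ℕ × ℕ)), ‖v p‖ < A * n ^ 2 := by
    intro p hp
    rw [mem_product, mem_product, Finset.mem_range, Finset.mem_range, Finset.mem_range] at hp
    have h1 : (p.1 : ℝ) ≤ n ^ 2 := by exact_mod_cast (by omega : p.1 ≤ n ^ 2)
    have h2 : (p.2.1 : ℝ) ≤ n ^ 2 := by exact_mod_cast (by omega : p.2.1 ≤ n ^ 2)
    have h3 : (p.2.2 : ℝ) ≤ n ^ 2 := by exact_mod_cast (by omega : p.2.2 ≤ n ^ 2)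
    calc ‖v p‖ ≤ ‖(p.1 : ℂ) * z ^ 2‖ + ‖(p.2.1 : ℂ) * z‖ + ‖(p.2.2 : ℂ)‖ := norm_add₃_le
      _ = (p.1 : ℝ) * ‖z‖ ^ 2 + (p.2.1 : ℝ) * ‖z‖ + (p.2.2 : ℝ) := by
          rw [norm_mul, norm_mul, norm_pow, Complex.norm_natCast, Complex.norm_natCast,
            Complex.norm_natCast]
      _ ≤ (n : ℝ) ^ 2 * ‖z‖ ^ 2 + (n : ℝ) ^ 2 * ‖z‖ + (n : ℝ) ^ 2 := by gcongr
      _ < _ := by
          rw [hA]
          have : (0 : ℝ) < (n : ℝ) ^ 2 := by positivity
          nlinarith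
  have hcn : 2 * (A * (n : ℝ) ^ 2) * c = n ^ 3 := by
    rw [hc]; field_simp
  have hfl : ∀ t : ℝ, |t| < A * n ^ 2 → 0 ≤ (t + A * n ^ 2) * c ∧
      ⌊(t + A * n ^ 2) * c⌋₊ < n ^ 3 := by
    intro t ht
    rw [abs_lt] at ht
    have h0 : 0 ≤ (t + A * n ^ 2) * c := mul_nonneg (by linarith) hc0.le
    refine ⟨h0, ?_⟩
    rw [Nat.floor_lt h0]
    push_cast
    rw [← hcn]
    exact mul_lt_mul_of_pos_right (by linarith) hc0
  have hmaps : Set.MapsTo g (range (n ^ 2 + 1) ×ˢ (range (n ^ 2 + 1) ×ˢ range (n ^ 2 + 1)) :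
      Finset (ℕ × ℕ × ℕ)) (range (n ^ 3) ×ˢ range (n ^ 3) : Finset (ℕ × ℕ)) := by
    intro p hp
    rw [Finset.mem_coe] at hp
    have h1 := hbd p hp
    rw [Finset.mem_coe, mem_product, Finset.mem_range, Finset.mem_range]
    exact ⟨(hfl _ (lt_of_le_of_lt (Complex.abs_re_le_norm _) h1)).2,
      (hfl _ (lt_of_le_of_lt (Complex.abs_im_le_norm _) h1)).2⟩
  have hcard : (range (n ^ 3) ×ˢ range (n ^ 3) : Finset (ℕ × ℕ)).card <
      (range (n ^ 2 + 1) ×ˢ (range (n ^ 2 + 1) ×ˢ range (n ^ 2 + 1)) :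
      Finset (ℕ × ℕ × ℕ)).card := by
    rw [card_product, card_product, card_product, card_range, card_range]
    have h1 : 1 ≤ n ^ 2 := Nat.one_le_pow _ _ hn1
    have h2 : n ^ 3 * n ^ 3 = n ^ 2 * (n ^ 2 * n ^ 2) := by ring
    rw [h2]
    nlinarith [Nat.mul_le_mul h1 h1]
  obtain ⟨p, hp, p', hp', hne, heq⟩ := Finset.exists_ne_map_eq_of_card_lt_of_maps_to hcard hmaps
  have h1 := hbd p hp
  have h2 := hbd p' hp'
  rw [mem_product, mem_product, Finset.mem_range, Finset.mem_range, Finset.mem_range] at hp hp'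
  set u : ℤ × ℤ × ℤ := ((p.1 : ℤ) - p'.1, (p.2.1 : ℤ) - p'.2.1, (p.2.2 : ℤ) - p'.2.2) with hu
  have hvu : evc u z = v p - v p' := by
    rw [hu, hv]
    unfold evc
    push_cast
    ring
  refine ⟨u, ?_, ?_, ?_⟩
  · intro h0
    rw [hu] at h0
    simp only [Prod.mk_eq_zero] at h0
    apply hne
    obtain ⟨e1, e2, e3⟩ := h0
    refine Prod.ext (by omega) (Prod.ext (by omega) (by omega))
  · rw [hu]
    unfold hn
    simp only [max_le_iff]
    omega
  · rw [hg] at heq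
    simp only [Prod.mk.injEq] at heq
    have k1 := floor_close hc0 (hfl _ (lt_of_le_of_lt (Complex.abs_re_le_norm _) h1)).1
      (hfl _ (lt_of_le_of_lt (Complex.abs_re_le_norm _) h2)).1 heq.1
    have k2 := floor_close hc0 (hfl _ (lt_of_le_of_lt (Complex.abs_im_le_norm _) h1)).1
      (hfl _ (lt_of_le_of_lt (Complex.abs_im_le_norm _) h2)).1 heq.2
    rw [hvu]
    refine (Complex.norm_le_abs_re_add_abs_im _).trans ?_
    rw [Complex.sub_re, Complex.sub_im]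
    rw [add_sub_add_right_eq_sub] at k1 k2
    have k3 : 1 / c = 2 * A / n := by rw [hc]; field_simp
    rw [k3] at k1 k2
    have k4 : 4 * A / (n : ℝ) = 2 * A / n + 2 * A / n := by ring
    rw [k4]
    exact add_le_add k1 k2

/-- Dirichlet's theorem for Gaussian integers -/
lemma dirichlet_g (z : ℂ) (N : ℕ) (hN : 1 ≤ N) : ∃ a b c d : ℤ, (a ≠ 0 ∨ b ≠ 0) ∧
    |(a : ℝ)| ≤ N ∧ |(b : ℝ)| ≤ N ∧
    ‖((a : ℂ) + b * Complex.I) * z - ((c : ℂ) + d * Complex.I)‖ ≤ 2 / (N : ℝ) := by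
  have hN0 : (0 : ℝ) < N := by exact_mod_cast hN
  set v : ℕ × ℕ → ℂ := fun p => ((p.1 : ℂ) + p.2 * Complex.I) * z with hv
  set g : ℕ × ℕ → ℕ × ℕ := fun p =>
    (⌊Int.fract (v p).re * N⌋₊, ⌊Int.fract (v p).im * N⌋₊) with hg
  have hfl : ∀ t : ℝ, ⌊Int.fract t * N⌋₊ < N := by
    intro t
    rw [Nat.floor_lt (mul_nonneg (Int.fract_nonneg _) hN0.le)]
    have := Int.fract_lt_one t
    nlinarith
  have hmaps : Set.MapsTo g (range (N + 1) ×ˢ range (N + 1) : Finset (ℕ × ℕ))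
      (range N ×ˢ range N : Finset (ℕ × ℕ)) := by
    intro p _
    rw [Finset.mem_coe, mem_product, Finset.mem_range, Finset.mem_range]
    exact ⟨hfl _, hfl _⟩
  have hcard : (range N ×ˢ range N : Finset (ℕ × ℕ)).card <
      (range (N + 1) ×ˢ range (N + 1) : Finset (ℕ × ℕ)).card := by
    rw [card_product, card_product, card_range, card_range]
    nlinarith
  obtain ⟨p, hp, p', hp', hne, heq⟩ := Finset.exists_ne_map_eq_of_card_lt_of_maps_to hcard hmaps
  rw [mem_product, Finset.mem_range, Finset.mem_range] at hp hp'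
  rw [hg] at heq
  simp only [Prod.mk.injEq] at heq
  have k1 := floor_close hN0 (mul_nonneg (Int.fract_nonneg _) hN0.le)
    (mul_nonneg (Int.fract_nonneg _) hN0.le) heq.1
  have k2 := floor_close hN0 (mul_nonneg (Int.fract_nonneg _) hN0.le)
    (mul_nonneg (Int.fract_nonneg _) hN0.le) heq.2
  refine ⟨(p.1 : ℤ) - p'.1, (p.2 : ℤ) - p'.2, ⌊(v p).re⌋ - ⌊(v p').re⌋, ⌊(v p).im⌋ - ⌊(v p').im⌋,
    ?_, ?_, ?_, ?_⟩
  · by_contra h
    push Not at h
    apply hne
    ext <;> omega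
  · push_cast
    rw [abs_le]
    have h1 : (p.1 : ℝ) ≤ N := by exact_mod_cast (by omega : p.1 ≤ N)
    have h2 : (p'.1 : ℝ) ≤ N := by exact_mod_cast (by omega : p'.1 ≤ N)
    have h3 : (0 : ℝ) ≤ p.1 := Nat.cast_nonneg _
    have h4 : (0 : ℝ) ≤ p'.1 := Nat.cast_nonneg _
    constructor <;> linarith
  · push_cast
    rw [abs_le]
    have h1 : (p.2 : ℝ) ≤ N := by exact_mod_cast (by omega : p.2 ≤ N)
    have h2 : (p'.2 : ℝ) ≤ N := by exact_mod_cast (by omega : p'.2 ≤ N)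
    have h3 : (0 : ℝ) ≤ p.2 := Nat.cast_nonneg _
    have h4 : (0 : ℝ) ≤ p'.2 := Nat.cast_nonneg _
    constructor <;> linarith
  · set w : ℂ := ((((p.1 : ℤ) - p'.1 : ℤ) : ℂ) + (((p.2 : ℤ) - p'.2 : ℤ) : ℂ) * Complex.I) * z -
      (((⌊(v p).re⌋ - ⌊(v p').re⌋ : ℤ) : ℂ) +
        ((⌊(v p).im⌋ - ⌊(v p').im⌋ : ℤ) : ℂ) * Complex.I) with hw
    have hw2 : w = (v p - v p') - (((⌊(v p).re⌋ - ⌊(v p').re⌋ : ℤ) : ℂ) +
        ((⌊(v p).im⌋ - ⌊(v p').im⌋ : ℤ) : ℂ) * Complex.I) := by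
      rw [hw, hv]; push_cast; ring
    have e1 : w.re = Int.fract (v p).re - Int.fract (v p').re := by
      have f1 := Int.self_sub_floor (v p).re
      have f2 := Int.self_sub_floor (v p').re
      rw [hw2]
      simp
      linarith
    have e2 : w.im = Int.fract (v p).im - Int.fract (v p').im := by
      have f1 := Int.self_sub_floor (v p).im
      have f2 := Int.self_sub_floor (v p').im
      rw [hw2]
      simp
      linarith
    refine (Complex.norm_le_abs_re_add_abs_im _).trans ?_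
    rw [e1, e2]
    have k4 : 2 / (N : ℝ) = 1 / N + 1 / N := by ring
    rw [k4]
    exact add_le_add k1 k2

/-- the polynomial with a given coefficient vector -/
noncomputable def pol (u : ℤ × ℤ × ℤ) : ℤ[X] := C u.1 * X ^ 2 + C u.2.1 * X + C u.2.2

lemma cu_pol (u : ℤ × ℤ × ℤ) : cu (pol u) = u := by
  unfold cu pol
  refine Prod.ext ?_ (Prod.ext ?_ ?_) <;>
  · simp only [coeff_add, coeff_C_mul, coeff_X_pow, coeff_X, coeff_C]
    norm_num

lemma deg_pol (u : ℤ × ℤ × ℤ) : (pol u).natDegree ≤ 2 := by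
  unfold pol; exact natDegree_quadratic_le

lemma aeval_pol (u : ℤ × ℤ × ℤ) (z : ℂ) : aeval z (pol u) = evc u z := by
  rw [← evc_cu _ (deg_pol u), cu_pol]

/-- a quadratic polynomial with a negative discriminant is irreducible -/
lemma irr_neg (u : ℤ × ℤ × ℤ) (hneg : ds u < 0) :
    Irreducible (pol u).primPart ∧ (pol u).primPart.natDegree = 2 := by
  refine irr_of_not_prod (pol u) (fun g h hg hh hgh => ?_) (deg_pol u)
  obtain ⟨a, b, rfl⟩ := exists_eq_X_add_C_of_natDegree_le_one hg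
  obtain ⟨c, d, rfl⟩ := exists_eq_X_add_C_of_natDegree_le_one hh
  have h1 : pol u = pol (a * c, a * d + b * c, b * d) := by
    rw [hgh]
    unfold pol
    simp only [C_mul, C_add]
    ring
  have h2 := congrArg cu h1
  rw [cu_pol, cu_pol] at h2
  rw [h2] at hneg
  unfold ds at hneg
  nlinarith [sq_nonneg (a * d - b * c)]

/-- the primitive part is smaller -/
lemma prim_smallC (P : ℤ[X]) (hP : P ≠ 0) (x : ℂ) :
    mm P.primPart ≤ mm P ∧ ‖aeval x P.primPart‖ ≤ ‖aeval x P‖ := by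
  refine ⟨(prim_small P hP 0).1, ?_⟩
  have hc : P.content ≠ 0 := content_eq_zero_iff.not.2 hP
  have hc1 : (1 : ℝ) ≤ |(P.content : ℝ)| := by exact_mod_cast Int.one_le_abs hc
  have h := P.eq_C_content_mul_primPart
  have h1 := congrArg (fun p => ‖aeval x p‖) h
  simp only [map_mul, aeval_C, norm_mul] at h1
  rw [h1]
  have h2 : ‖(algebraMap ℤ ℂ) P.content‖ = |(P.content : ℝ)| := by
    rw [← Complex.norm_intCast]; rfl
  rw [h2]
  have := norm_nonneg (aeval x P.primPart)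
  nlinarith

/-- the polynomials of bounded size do not have very small values -/
lemma low_fin {z : ℂ} (hq : ∀ f : ℤ[X], f ≠ 0 → f.natDegree ≤ 2 → aeval z f ≠ 0) (R : ℝ) :
    ∃ c : ℝ, 0 < c ∧ ∀ f : ℤ[X], f ≠ 0 → f.natDegree = 2 → mm f ≤ R → c ≤ ‖aeval z f‖ := by
  classical
  obtain ⟨N, hN⟩ := exists_nat_ge (4 * R)
  obtain ⟨c, hc, h⟩ := exists_pos_le (ι := {u // u ∈ Pool.Agent.X124.MV.box N})
    (fun u => if evc u.1 z = 0 then 1 else ‖evc u.1 z‖) (fun u => by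
      split_ifs with h
      · exact one_pos
      · exact norm_pos_iff.2 h)
  refine ⟨c, hc, fun f hf hd hm => ?_⟩
  have h1 := hn_le_mm f hd
  have h2 : hn (cu f) ≤ N := by
    have : (hn (cu f) : ℝ) ≤ N := by linarith
    exact_mod_cast this
  have h3 := h ⟨cu f, mem_box_of_hn h2⟩
  simp only at h3
  rw [evc_cu f hd.le, if_neg (hq f hf hd.le)] at h3
  exact h3

/-- **Quadratic points that are very close to a complex point.** -/
theorem exists_quadC {z : ℂ} (hz : z.im ≠ 0)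
    (hq : ∀ f : ℤ[X], f ≠ 0 → f.natDegree ≤ 2 → aeval z f ≠ 0) :
    ∃ K : ℝ, 1 ≤ K ∧ ∀ R : ℝ, ∃ f : ℤ[X], Irreducible f ∧ f.natDegree = 2 ∧ R ≤ mm f ∧
      ‖aeval z f‖ ≤ K / Real.sqrt (mm f) := by
  have hs0 : 0 < |z.im| := abs_pos.2 hz
  set A : ℝ := 2 + ‖z‖ + ‖z‖ ^ 2 with hA
  have hz0 := norm_nonneg z
  have hA2 : 2 ≤ A := by rw [hA]; nlinarith
  refine ⟨8 * A, by linarith, fun R => ?_⟩
  obtain ⟨c, hc, hlow⟩ := low_fin hq R
  obtain ⟨n, hnn⟩ := exists_nat_gt (max 1 (max (4 * A / c) (4 * A / (min (z.im ^ 2 / 2) 1))))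
  have hn1 : (1 : ℝ) < n := lt_of_le_of_lt (le_max_left _ _) hnn
  have hn2 : 4 * A / c < n := lt_of_le_of_lt ((le_max_left _ _).trans (le_max_right _ _)) hnn
  have hn3 : 4 * A / (min (z.im ^ 2 / 2) 1) < n :=
    lt_of_le_of_lt ((le_max_right _ _).trans (le_max_right _ _)) hnn
  have hn0 : (0 : ℝ) < n := by linarith
  obtain ⟨u, hu0, hun, huv⟩ := dirichlet_c z n (by exact_mod_cast hn1.le)
  rw [← hA] at huv
  set t : ℝ := 4 * A / n with ht
  have hmin : 0 < min (z.im ^ 2 / 2) 1 := by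
    have : 0 < z.im ^ 2 := by positivity
    exact lt_min (by positivity) one_pos
  have ht3 : t < min (z.im ^ 2 / 2) 1 := by
    rw [div_lt_iff₀ hmin] at hn3
    rw [ht, div_lt_iff₀ hn0]
    linarith
  have ht1 : t < z.im ^ 2 / 2 := lt_of_lt_of_le ht3 (min_le_left _ _)
  have ht2 : t < 1 := lt_of_lt_of_le ht3 (min_le_right _ _)
  have ht0 : 0 ≤ t := by positivity
  have htc : t < c := by
    rw [div_lt_iff₀ hc] at hn2
    rw [ht, div_lt_iff₀ hn0]
    linarith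
  obtain ⟨b1, b2⟩ := basic huv
  -- the leading coefficient does not vanish
  have ha : u.1 ≠ 0 := by
    intro ha
    have e1 : evc u z ≠ 0 := by
      rw [← aeval_pol]
      refine hq _ ?_ (deg_pol u)
      intro h0
      apply hu0
      rw [← cu_pol u, h0]
      unfold cu
      simp
    rw [ha] at b1 b2
    simp only [Int.cast_zero, mul_zero, zero_mul, zero_add, abs_zero] at b1 b2
    have e2 : |(u.2.1 : ℝ)| < 1 := by
      have e3 : |z.im| * |(u.2.1 : ℝ)| < |z.im| * |z.im| := by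
        have : |z.im| * |z.im| = z.im ^ 2 := by rw [← sq, sq_abs]
        rw [this]
        have : 0 < z.im ^ 2 := by positivity
        linarith
      have e4 : |(u.2.1 : ℝ)| < |z.im| := lt_of_mul_lt_mul_left e3 hs0.le
      by_contra hcon
      push Not at hcon
      have e5 : |z.im| ≤ |z.im| * |(u.2.1 : ℝ)| := by nlinarith
      have e6 : |z.im| < 1 := by
        by_contra h7
        push Not at h7
        nlinarith
      have e7 : |z.im| * 1 ≤ t := by nlinarith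
      have e8 : z.im ^ 2 < |z.im| := by
        rw [← sq_abs]
        nlinarith
      linarith
    have e3 : u.2.1 = 0 := by
      have : |u.2.1| < 1 := by exact_mod_cast e2
      exact Int.abs_lt_one_iff.1 this
    have e4 : evc u z = (u.2.2 : ℂ) := by
      unfold evc; rw [ha, e3]; simp
    rw [e4] at huv e1
    rw [Complex.norm_intCast] at huv
    have e5 : u.2.2 ≠ 0 := by exact_mod_cast e1
    have e6 : (1 : ℝ) ≤ |(u.2.2 : ℝ)| := by exact_mod_cast Int.one_le_abs e5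
    linarith
  have ha1 : (1 : ℝ) ≤ |(u.1 : ℝ)| := by exact_mod_cast Int.one_le_abs ha
  have hneg : ds u < 0 := by
    have e1 : (2 * u.1 * z.re + u.2.1) ^ 2 * z.im ^ 2 ≤ t ^ 2 := by
      have := pow_le_pow_left₀ (by positivity) b1 2
      rw [mul_pow, sq_abs, sq_abs] at this
      linarith
    have e2 := (abs_le.1 b2).2
    have e2' := (abs_le.1 b2).1
    have hs2 : 0 < z.im ^ 2 := by positivity
    have e3 : (2 * u.1 * z.re + u.2.1) ^ 2 ≤ t / 2 := by
      have : (2 * u.1 * z.re + u.2.1) ^ 2 * z.im ^ 2 ≤ t / 2 * z.im ^ 2 := by nlinarith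
      exact le_of_mul_le_mul_right this hs2
    have e4 : (ds u : ℝ) ≤ t / 2 + 4 * |(u.1 : ℝ)| * t - 4 * (u.1 : ℝ) ^ 2 * z.im ^ 2 := by
      linarith
    have e5 : 4 * |(u.1 : ℝ)| * t < 2 * (u.1 : ℝ) ^ 2 * z.im ^ 2 := by
      rw [← sq_abs (u.1 : ℝ)]
      have : |(u.1 : ℝ)| * t < |(u.1 : ℝ)| ^ 2 * (z.im ^ 2 / 2) := by
        calc |(u.1 : ℝ)| * t < |(u.1 : ℝ)| * (z.im ^ 2 / 2) :=
              mul_lt_mul_of_pos_left ht1 (by linarith)
          _ ≤ |(u.1 : ℝ)| * |(u.1 : ℝ)| * (z.im ^ 2 / 2) := by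
              apply mul_le_mul_of_nonneg_right _ (by positivity)
              nlinarith
          _ = _ := by ring
      linarith
    have e6 : t / 2 < 2 * (u.1 : ℝ) ^ 2 * z.im ^ 2 := by
      rw [← sq_abs (u.1 : ℝ)]
      have : z.im ^ 2 ≤ |(u.1 : ℝ)| ^ 2 * z.im ^ 2 := by
        have := one_le_pow₀ ha1 (n := 2)
        nlinarith
      linarith
    have e7 : (ds u : ℝ) < 0 := by linarith
    exact_mod_cast e7
  obtain ⟨hirr, hdeg⟩ := irr_neg u hneg
  have hP0 : pol u ≠ 0 := by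
    intro h0
    rw [h0] at hdeg
    simp at hdeg
  obtain ⟨hm2, hv2⟩ := prim_smallC (pol u) hP0 z
  rw [aeval_pol] at hv2
  set f := (pol u).primPart with hf
  have hval : ‖aeval z f‖ ≤ t := hv2.trans huv
  have hmf := one_le_mm hirr.ne_zero
  refine ⟨f, hirr, hdeg, ?_, ?_⟩
  · by_contra hlt
    push Not at hlt
    have := hlow f hirr.ne_zero hdeg hlt.le
    linarith
  · have h1 := mm_le_hn (pol u) (deg_pol u)
    rw [cu_pol] at h1
    have h2 : (hn u : ℝ) ≤ (n : ℝ) ^ 2 := by exact_mod_cast hun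
    have h3 : mm f ≤ (2 * n) ^ 2 := by
      have : 0 ≤ (n : ℝ) ^ 2 := by positivity
      nlinarith
    have h4 : Real.sqrt (mm f) ≤ 2 * n := Real.sqrt_le_iff.2 ⟨by positivity, h3⟩
    have h5 : 0 < Real.sqrt (mm f) := Real.sqrt_pos.2 (by linarith)
    refine hval.trans ?_
    rw [ht, div_le_div_iff₀ hn0 h5]
    nlinarith

end Pool.Agent.X124.MC
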