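import Mathlib
import Pool.Agent.X124.MC.Sharp

set_option autoImplicit false

/-!
Sharpness: Gaussian points close to a given complex point, and the passage to the proximity
function.
-/

namespace Pool.Agent.X124.MC

open Polynomial Finset IntermediateField Pool.Agent.H990R4.VJ
  Pool.Agent.W226.VQ Pool.Agent.X124.MV ComplexConjugate

/-- the coefficient vector of the polynomial of a Gaussian number `(c + d i) / (a + b i)` -/
def gv (a b c d : ℤ) : ℤ × ℤ × ℤ := (a ^ 2 + b ^ 2, -2 * (a * c + b * d), c ^ 2 + d ^ 2)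

lemma ds_gv (a b c d : ℤ) : ds (gv a b c d) = -4 * (a * d - b * c) ^ 2 := by
  unfold ds gv
  ring

lemma evc_gv (a b c d : ℤ) (z : ℂ) : evc (gv a b c d) z =
    (((a : ℂ) + b * Complex.I) * z - (c + d * Complex.I)) *
      (((a : ℂ) - b * Complex.I) * z - (c - d * Complex.I)) := by
  unfold evc gv
  push_cast
  linear_combination ((b : ℂ) * z - d) ^ 2 * Complex.I_sq

lemma lD_congr {x y : ℂ} (h : ℚ⟮x⟯ = ℚ⟮y⟯) : lD x = lD y := by
  unfold lD
  rw [h]

lemma lD_I : lD Complex.I ≤ 2 := by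
  have hns : ¬ IsSquare (-1 : ℤ) := by
    rintro ⟨a, ha⟩
    nlinarith [mul_self_nonneg a]
  unfold lD
  split_ifs with h
  · obtain ⟨h1, h2⟩ := abs_discr_le (y := Complex.I) (n := -1) hns (by simp)
    rw [h1]
    have h3 : |(NumberField.discr ℚ⟮Complex.I⟯ : ℝ)| ≤ 4 := by
      have : (|NumberField.discr ℚ⟮Complex.I⟯| : ℤ) ≤ 4 := by
        refine h2.trans ?_
        norm_num
      exact_mod_cast this
    have h4 : (0 : ℝ) < |(NumberField.discr ℚ⟮Complex.I⟯ : ℝ)| := by
      have := NumberField.discr_ne_zero ℚ⟮Complex.I⟯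
      exact abs_pos.2 (by exact_mod_cast this)
    have h5 := Real.log_le_log h4 h3
    have h6 : Real.log 4 ≤ 3 := by
      have := Real.log_le_sub_one_of_pos (by norm_num : (0 : ℝ) < 4)
      linarith
    push_cast
    linarith
  · norm_num

/-- **Gaussian points close to a complex point.** -/
theorem exists_gauss {z : ℂ} (hz : z.im ≠ 0)
    (hq : ∀ f : ℤ[X], f ≠ 0 → f.natDegree ≤ 2 → aeval z f ≠ 0) :
    ∃ K : ℝ, 1 ≤ K ∧ ∀ R : ℝ, ∃ (x : ℂ) (f : ℤ[X]), Irreducible f ∧ f.natDegree = 2 ∧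
      aeval x f = 0 ∧ lD x ≤ 2 ∧ R ≤ mm f ∧ ‖aeval z f‖ ≤ K := by
  have hs0 : 0 < |z.im| := abs_pos.2 hz
  have hz0 := norm_nonneg z
  refine ⟨8 * ‖z‖ + 5, by linarith, fun R => ?_⟩
  obtain ⟨c0, hc0, hlow⟩ := low_fin hq R
  obtain ⟨N, hN⟩ := exists_nat_gt (max 1 (max (2 / |z.im|) (4 * |R| * 2 * (2 * ‖z‖ + 2) / c0)))
  have hN1 : (1 : ℝ) < N := lt_of_le_of_lt (le_max_left _ _) hN
  have hN2 : 2 / |z.im| < N := lt_of_le_of_lt ((le_max_left _ _).trans (le_max_right _ _)) hN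
  have hN3 : 4 * |R| * 2 * (2 * ‖z‖ + 2) / c0 < N :=
    lt_of_le_of_lt ((le_max_right _ _).trans (le_max_right _ _)) hN
  have hN0 : (0 : ℝ) < N := by linarith
  obtain ⟨a, b, c, d, hab, ha, hb, hv⟩ := dirichlet_g z N (by exact_mod_cast hN1.le)
  set Q : ℂ := (a : ℂ) + b * Complex.I with hQ
  set P : ℂ := (c : ℂ) + d * Complex.I with hP
  have hQre : Q.re = a := by rw [hQ]; simp
  have hQim : Q.im = b := by rw [hQ]; simp
  have hPre : P.re = c := by rw [hP]; simp
  have hPim : P.im = d := by rw [hP]; simp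
  have hQc : conj Q = (a : ℂ) - b * Complex.I := by
    apply Complex.ext <;> simp [hQ]
  have hPc : conj P = (c : ℂ) - d * Complex.I := by
    apply Complex.ext <;> simp [hP]
  have hQ0 : Q ≠ 0 := by
    intro h
    rcases hab with h1 | h1
    · apply h1
      have := congrArg Complex.re h
      rw [hQre] at this
      simpa using this
    · apply h1
      have := congrArg Complex.im h
      rw [hQim] at this
      simpa using this
  have hQn : (1 : ℝ) ≤ ‖Q‖ := by
    have h1 : (1 : ℤ) ≤ a ^ 2 + b ^ 2 := by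
      rcases hab with h1 | h1
      · have := sq_nonneg b
        have := pow_pos (abs_pos.2 h1) 2
        rw [sq_abs] at this
        omega
      · have := sq_nonneg a
        have := pow_pos (abs_pos.2 h1) 2
        rw [sq_abs] at this
        omega
    have h2 : ‖Q‖ ^ 2 = (a : ℝ) ^ 2 + (b : ℝ) ^ 2 := by
      rw [← Complex.normSq_eq_norm_sq, Complex.normSq_apply, hQre, hQim]; ring
    have h3 : (1 : ℝ) ≤ ‖Q‖ ^ 2 := by rw [h2]; exact_mod_cast h1
    have := norm_nonneg Q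
    nlinarith
  have hQ2 : ‖Q‖ ≤ 2 * N := by
    refine (Complex.norm_le_abs_re_add_abs_im _).trans ?_
    rw [hQre, hQim]
    linarith
  set x : ℂ := P / Q with hx
  have hxz : ‖z - x‖ * ‖Q‖ ≤ 2 / N := by
    rw [← norm_mul]
    have : (z - x) * Q = Q * z - P := by
      rw [hx]; field_simp
    rw [this]
    exact hv
  have hxz2 : ‖z - x‖ ≤ 2 / N := by
    have := norm_nonneg (z - x)
    nlinarith
  -- the point is not real
  have hw : a * d - b * c ≠ 0 := by
    intro h
    have h1 : x.im = 0 := by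
      rw [hx, Complex.div_im, hPre, hPim, hQre, hQim]
      have h2 : ((a : ℝ) * d - b * c) = 0 := by exact_mod_cast h
      have h3 : (d : ℝ) * a = c * b := by linarith
      rw [h3]
      ring
    have h2 := (Complex.abs_im_le_norm (z - x)).trans hxz2
    rw [Complex.sub_im, h1, sub_zero] at h2
    rw [div_lt_iff₀ hs0] at hN2
    rw [le_div_iff₀ hN0] at h2
    linarith
  have hneg : ds (gv a b c d) < 0 := by
    rw [ds_gv]
    have : 0 < (a * d - b * c) ^ 2 := by positivity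
    linarith
  obtain ⟨hirr, hdeg⟩ := irr_neg _ hneg
  have hP0 : pol (gv a b c d) ≠ 0 := by
    intro h0
    rw [h0] at hdeg
    simp at hdeg
  obtain ⟨-, hv2⟩ := prim_smallC _ hP0 z
  rw [aeval_pol] at hv2
  have hcont := (pol (gv a b c d)).eq_C_content_mul_primPart
  set f := (pol (gv a b c d)).primPart with hf
  set k := (pol (gv a b c d)).content with hk
  have hk0 : k ≠ 0 := content_eq_zero_iff.not.2 hP0
  have hkC : (k : ℂ) ≠ 0 := by exact_mod_cast hk0
  -- the root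
  have hroot0 : evc (gv a b c d) x = 0 := by
    rw [evc_gv, ← hQ, ← hP]
    have : Q * x - P = 0 := by rw [hx]; field_simp; ring
    rw [this, zero_mul]
  have hmul : ∀ w : ℂ, evc (gv a b c d) w = k * aeval w f := by
    intro w
    rw [← aeval_pol]
    conv_lhs => rw [hcont]
    simp
  have hroot : aeval x f = 0 := by
    have := hmul x
    rw [hroot0] at this
    rcases mul_eq_zero.1 this.symm with h | h
    · exact (hkC h).elim
    · exact h
  -- the discriminant
  have hI : lD x ≤ 2 := by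
    refine le_trans (le_of_eq ?_) lD_I
    apply lD_congr
    have hA0 : a ^ 2 + b ^ 2 ≠ 0 := by
      intro h
      have h1 : ‖Q‖ ^ 2 = (a : ℝ) ^ 2 + (b : ℝ) ^ 2 := by
        rw [← Complex.normSq_eq_norm_sq, Complex.normSq_apply, hQre, hQim]; ring
      have h2 : (a : ℝ) ^ 2 + (b : ℝ) ^ 2 = 0 := by exact_mod_cast h
      rw [h2] at h1
      nlinarith
    rw [adjoin_eq (a ^ 2 + b ^ 2) (-2 * (a * c + b * d)) hA0 x,
      adjoin_eq (a * d - b * c) 0 hw Complex.I]
    congr 2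
    have hQQ : Q * conj Q = (a : ℂ) ^ 2 + (b : ℂ) ^ 2 := by
      rw [hQc, hQ]
      linear_combination (-(b : ℂ) ^ 2) * Complex.I_sq
    have h1 : ((a : ℂ) ^ 2 + (b : ℂ) ^ 2) * x = P * conj Q := by
      rw [← hQQ, hx]
      field_simp
    have h2 : P * conj Q = (a * c + b * d : ℂ) + (a * d - b * c) * Complex.I := by
      rw [hQc, hP]
      linear_combination (-(d : ℂ) * b) * Complex.I_sq
    push_cast
    rw [h2] at h1
    linear_combination 2 * h1
  refine ⟨x, f, hirr, hdeg, hroot, hI, ?_, ?_⟩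
  · -- the size
    by_contra hlt
    push Not at hlt
    have h1 := hlow f hirr.ne_zero hdeg hlt.le
    -- factorization of `f`
    have h2 : (k : ℂ) * aeval z f = (k : ℂ) * (f.coeff 2 * ((z - x) * (z - conj x))) := by
      rw [← hmul, evc_gv, ← hQ, ← hP, ← hQc, ← hPc]
      have e1 : Q * z - P = Q * (z - x) := by rw [hx]; field_simp
      have hQc0 : conj Q ≠ 0 := (_root_.map_ne_zero _).2 hQ0
      have e2 : conj Q * z - conj P = conj Q * (z - conj x) := by
        rw [hx, map_div₀]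
        field_simp
      have e3 : (k : ℂ) * f.coeff 2 = (a : ℂ) ^ 2 + (b : ℂ) ^ 2 := by
        have h3 := congrArg (fun p => p.coeff 2) hcont
        simp only [coeff_C_mul] at h3
        have h4 : (pol (gv a b c d)).coeff 2 = a ^ 2 + b ^ 2 := by
          have := congrArg Prod.fst (cu_pol (gv a b c d))
          exact this
        rw [h4] at h3
        exact_mod_cast h3.symm
      have hQQ : Q * conj Q = (a : ℂ) ^ 2 + (b : ℂ) ^ 2 := by
        rw [hQc, hQ]
        linear_combination (-(b : ℂ) ^ 2) * Complex.I_sq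
      rw [e1, e2]
      linear_combination (z - x) * (z - conj x) * hQQ - (z - x) * (z - conj x) * e3
    have h3 := mul_left_cancel₀ hkC h2
    rw [h3, norm_mul, norm_mul, Complex.norm_intCast] at h1
    have h4 : |(f.coeff 2 : ℝ)| ≤ 4 * |R| := by
      have e1 := (abs_coef_le (cu f)).1
      have e2 := hn_le_mm f hdeg
      have e3 := le_abs_self R
      have e4 : |((cu f).1 : ℝ)| = |(f.coeff 2 : ℝ)| := rfl
      rw [e4] at e1
      linarith
    have h5 : ‖z - conj x‖ ≤ 2 * ‖z‖ + 2 := by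
      have e1 : ‖x‖ ≤ ‖z‖ + 2 := by
        have e2 : x = z - (z - x) := by ring
        rw [e2]
        refine (norm_sub_le _ _).trans ?_
        have : 2 / (N : ℝ) ≤ 2 := by
          rw [div_le_iff₀ hN0]; linarith
        linarith
      refine (norm_sub_le _ _).trans ?_
      rw [Complex.norm_conj]
      linarith
    have h6 : |(f.coeff 2 : ℝ)| * (‖z - x‖ * ‖z - conj x‖) ≤
        4 * |R| * (2 / N * (2 * ‖z‖ + 2)) := by
      gcongr
    have h7 : c0 ≤ 4 * |R| * (2 / N * (2 * ‖z‖ + 2)) := h1.trans h6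
    rw [div_lt_iff₀ hc0] at hN3
    have h8 : 4 * |R| * (2 / N * (2 * ‖z‖ + 2)) = 4 * |R| * 2 * (2 * ‖z‖ + 2) / N := by
      field_simp
    rw [h8, le_div_iff₀ hN0] at h7
    linarith
  · refine hv2.trans ?_
    rw [evc_gv, ← hQ, ← hP, ← hQc, ← hPc, norm_mul]
    have e1 : ‖conj Q * z - conj P‖ ≤ 4 * ‖z‖ * N + 2 := by
      have e2 : conj Q * z - conj P = conj (Q * z - P) + conj Q * (z - conj z) := by
        simp only [map_sub, map_mul]
        ring
      rw [e2]
      refine (norm_add_le _ _).trans ?_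
      rw [Complex.norm_conj, norm_mul, Complex.norm_conj]
      have e3 : ‖z - conj z‖ ≤ 2 * ‖z‖ := by
        refine (norm_sub_le _ _).trans ?_
        rw [Complex.norm_conj]
        linarith
      have e4 : ‖Q‖ * ‖z - conj z‖ ≤ 2 * N * (2 * ‖z‖) :=
        mul_le_mul hQ2 e3 (norm_nonneg _) (by positivity)
      have e5 : 2 / (N : ℝ) ≤ 2 := by
        rw [div_le_iff₀ hN0]; linarith
      linarith
    calc ‖Q * z - P‖ * ‖conj Q * z - conj P‖ ≤ 2 / N * (4 * ‖z‖ * N + 2) :=
          mul_le_mul hv e1 (norm_nonneg _) (by positivity)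
      _ = 8 * ‖z‖ + 4 / N := by field_simp; ring
      _ ≤ _ := by
        have : 4 / (N : ℝ) ≤ 4 := by
          rw [div_le_iff₀ hN0]; linarith
        linarith

/-- the value of a quadratic polynomial -/
lemma ev_leC (f : ℤ[X]) (hf : f.natDegree = 2) (x : ℂ) :
    ‖aeval x f‖ ≤ 12 * mm f * max 1 ‖x‖ ^ 2 := by
  rw [← evc_cu f hf.le]
  have h1 := hn_le_mm f hf
  obtain ⟨a1, a2, a3⟩ := abs_coef_le (cu f)
  have hm : (1 : ℝ) ≤ max 1 ‖x‖ := le_max_left _ _
  have hx : ‖x‖ ≤ max 1 ‖x‖ := le_max_right _ _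
  set M := max 1 ‖x‖ with hM
  have h0 : (0 : ℝ) ≤ hn (cu f) := Nat.cast_nonneg _
  have hx0 := norm_nonneg x
  have hx2 : ‖x‖ ^ 2 ≤ M ^ 2 := pow_le_pow_left₀ hx0 hx 2
  have hx1 : ‖x‖ ≤ M ^ 2 := by nlinarith
  have h11 : (1 : ℝ) ≤ M ^ 2 := by nlinarith
  unfold evc
  calc _ ≤ ‖((cu f).1 : ℂ) * x ^ 2‖ + ‖((cu f).2.1 : ℂ) * x‖ + ‖((cu f).2.2 : ℂ)‖ := norm_add₃_le
    _ = |((cu f).1 : ℝ)| * ‖x‖ ^ 2 + |((cu f).2.1 : ℝ)| * ‖x‖ + |((cu f).2.2 : ℝ)| := by
        rw [norm_mul, norm_mul, norm_pow, Complex.norm_intCast, Complex.norm_intCast,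
          Complex.norm_intCast]
    _ ≤ hn (cu f) * M ^ 2 + hn (cu f) * M ^ 2 + hn (cu f) * M ^ 2 := by
        have e1 := mul_le_mul a1 hx2 (by positivity) h0
        have e2 := mul_le_mul a2 hx1 hx0 h0
        nlinarith
    _ ≤ _ := by nlinarith

/-- the lower bound for the sum of the local heights -/
lemma sum_lower {r s : ℕ} {α : Fin r → ℝ} {β : Fin s → ℂ} (f : ℤ[X]) (hf : f ≠ 0)
    (hd : f.natDegree = 2) (hα : ∀ j, aeval (α j) f ≠ 0) (hβ : ∀ j, aeval (β j) f ≠ 0)
    (i : Fin s) (T : ℝ) (hT : Real.log ‖aeval (β i) f‖ ≤ T) :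
    2 * Real.log (mm f) - 2 * T - (r + 2 * s) * Real.log 12 ≤
      ((f.map (Int.castRingHom ℂ)).roots.map (gg α β)).sum := by
  rw [prox_all f hf α β hα hβ, hd]
  have hm : 0 < mm f := lt_of_lt_of_le one_pos (one_le_mm hf)
  have hl12 : 0 ≤ Real.log 12 := Real.log_nonneg (by norm_num)
  have k2 : ∀ j, Real.log |aeval (α j) f| ≤ Real.log (mm f) +
      (Real.log 12 + 2 * Real.log (max 1 |α j|)) := by
    intro j
    have hb : 0 < max 1 |α j| := lt_of_lt_of_le one_pos (le_max_left _ _)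
    have h1 := Real.log_le_log (abs_pos.2 (hα j)) (ev_le f hd (α j))
    rw [Real.log_mul (by positivity) (by positivity),
      Real.log_mul (by norm_num) hm.ne', Real.log_pow] at h1
    push_cast at h1
    linarith
  have k3 : ∀ j, Real.log ‖aeval (β j) f‖ ≤ Real.log (mm f) +
      (Real.log 12 + 2 * Real.log (max 1 ‖β j‖)) := by
    intro j
    have hb : 0 < max 1 ‖β j‖ := lt_of_lt_of_le one_pos (le_max_left _ _)
    have h1 := Real.log_le_log (norm_pos_iff.2 (hβ j)) (ev_leC f hd (β j))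
    rw [Real.log_mul (by positivity) (by positivity),
      Real.log_mul (by norm_num) hm.ne', Real.log_pow] at h1
    push_cast at h1
    linarith
  have k4 := sum_rest i (fun j => Real.log ‖aeval (β j) f‖)
    (fun j => Real.log 12 + 2 * Real.log (max 1 ‖β j‖)) _ _ hT k3 (by
      intro j
      have h2 : 0 ≤ Real.log (max 1 ‖β j‖) := Real.log_nonneg (le_max_left _ _)
      positivity)
  have k5 := Finset.sum_le_sum (s := Finset.univ) fun j _ => k2 j
  rw [Finset.sum_add_distrib, Finset.sum_const, Finset.card_univ, Fintype.card_fin, nsmul_eq_mul,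
    Finset.sum_add_distrib, Finset.sum_const, Finset.card_univ, Fintype.card_fin, nsmul_eq_mul,
    ← Finset.mul_sum] at k5
  rw [Finset.sum_add_distrib, Finset.sum_const, nsmul_eq_mul, Finset.card_univ,
    Fintype.card_fin, ← Finset.mul_sum] at k4
  unfold AA
  push_cast
  linarith

/-- quadratic points with a large proximity -/
theorem quad_sharpC {r s : ℕ} {α : Fin r → ℝ} {β : Fin s → ℂ}
    (hq : ∀ f : ℤ[X], f ≠ 0 → f.natDegree ≤ 2 →
      (∀ j, aeval (α j) f ≠ 0) ∧ (∀ j, aeval (β j) f ≠ 0)) (i : Fin s) (hi : (β i).im ≠ 0) :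
    ∃ C : ℝ, ∀ R : ℝ, ∃ (x : ℂ) (f : ℤ[X]), Irreducible f ∧ f.natDegree = 2 ∧ aeval x f = 0 ∧
      R ≤ Real.log (mm f) ∧ 3 * Real.log (mm f) - C ≤
      ((f.map (Int.castRingHom ℂ)).roots.map (gg α β)).sum := by
  obtain ⟨K, hK, hex⟩ := exists_quadC hi (fun f h1 h2 => (hq f h1 h2).2 i)
  refine ⟨2 * Real.log K + (r + 2 * s) * Real.log 12, fun R => ?_⟩
  obtain ⟨f, hirr, hdeg, hR, hval⟩ := hex (Real.exp R)
  have hm : 0 < mm f := lt_of_lt_of_le one_pos (one_le_mm hirr.ne_zero)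
  have hroot : ∃ x : ℂ, aeval x f = 0 := by
    have hd : (f.map (Int.castRingHom ℂ)).degree ≠ 0 := by
      rw [degree_map_eq_of_injective (RingHom.injective_int _), degree_eq_natDegree hirr.ne_zero,
        hdeg]
      norm_num
    obtain ⟨x, hx⟩ := IsAlgClosed.exists_root _ hd
    refine ⟨x, ?_⟩
    rw [IsRoot.def, eval_map] at hx
    rw [aeval_def]
    exact hx
  obtain ⟨x, hx⟩ := hroot
  refine ⟨x, f, hirr, hdeg, hx, ?_, ?_⟩
  · rw [Real.le_log_iff_exp_le hm]; exact hR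
  · obtain ⟨h1, h2⟩ := hq f hirr.ne_zero hdeg.le
    have hsq : 0 < Real.sqrt (mm f) := Real.sqrt_pos.2 hm
    have h3 : Real.log ‖aeval (β i) f‖ ≤ Real.log K - 1 / 2 * Real.log (mm f) := by
      have := Real.log_le_log (norm_pos_iff.2 (h2 i)) hval
      rw [Real.log_div (by positivity) (by positivity), Real.log_sqrt hm.le] at this
      linarith
    have h4 := sum_lower f hirr.ne_zero hdeg h1 h2 i _ h3
    linarith

/-- Gaussian points with a large proximity -/
theorem gauss_sharpC {r s : ℕ} {α : Fin r → ℝ} {β : Fin s → ℂ}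
    (hq : ∀ f : ℤ[X], f ≠ 0 → f.natDegree ≤ 2 →
      (∀ j, aeval (α j) f ≠ 0) ∧ (∀ j, aeval (β j) f ≠ 0)) (i : Fin s) (hi : (β i).im ≠ 0) :
    ∃ C : ℝ, ∀ R : ℝ, ∃ (x : ℂ) (f : ℤ[X]), Irreducible f ∧ f.natDegree = 2 ∧ aeval x f = 0 ∧
      lD x ≤ 2 ∧ R ≤ Real.log (mm f) ∧ 2 * Real.log (mm f) - C ≤
      ((f.map (Int.castRingHom ℂ)).roots.map (gg α β)).sum := by
  obtain ⟨K, hK, hex⟩ := exists_gauss hi (fun f h1 h2 => (hq f h1 h2).2 i)
  refine ⟨2 * Real.log K + (r + 2 * s) * Real.log 12, fun R => ?_⟩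
  obtain ⟨x, f, hirr, hdeg, hx, hD, hR, hval⟩ := hex (Real.exp R)
  have hm : 0 < mm f := lt_of_lt_of_le one_pos (one_le_mm hirr.ne_zero)
  refine ⟨x, f, hirr, hdeg, hx, hD, ?_, ?_⟩
  · rw [Real.le_log_iff_exp_le hm]; exact hR
  · obtain ⟨h1, h2⟩ := hq f hirr.ne_zero hdeg.le
    have h3 := Real.log_le_log (norm_pos_iff.2 (h2 i)) hval
    have h4 := sum_lower f hirr.ne_zero hdeg h1 h2 i _ h3
    linarith

end Pool.Agent.X124.MC
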