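import Mathlib
import Pool.Agent.X124.MC.Sharp2

set_option autoImplicit false

/-!
Packing: the quadratic numbers of one imaginary quadratic field of height at most `N` in a bounded
part of the upper half plane are separated by `c / N`; their number is at most `C N ^ 2`, with `C`
independent of the field.
-/

namespace Pool.Agent.X124.MC

open Finset MeasureTheory Filter Pool.Agent.X124.MV
open Pool.Agent.H813R3.Voj (op op_pos exists_sq)

/-- the coefficients are coprime -/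
def Prim (u : ℤ × ℤ × ℤ) : Prop := Int.gcd u.1 (Int.gcd u.2.1 u.2.2) = 1

lemma prop_eq {u v : ℤ × ℤ × ℤ} (hu : 0 < u.1) (hv : 0 < v.1) (pu : Prim u) (pv : Prim v)
    (h1 : u.1 * v.2.1 = v.1 * u.2.1) (h2 : u.1 * v.2.2 = v.1 * u.2.2) : u = v := by
  have key : ∀ x y : ℤ × ℤ × ℤ, 0 < x.1 → Prim y →
      Int.gcd (x.1 * y.1) (Int.gcd (x.1 * y.2.1) (x.1 * y.2.2)) = x.1.natAbs := by
    intro x y hx hy
    have e1 : ((Int.gcd (x.1 * y.2.1) (x.1 * y.2.2) : ℕ) : ℤ) =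
        x.1 * ((Int.gcd y.2.1 y.2.2 : ℕ) : ℤ) := by
      rw [Int.gcd_mul_left]
      push_cast
      rw [abs_of_pos hx]
    rw [e1, Int.gcd_mul_left]
    unfold Prim at hy
    rw [hy, mul_one]
  have e1 := key u v hu pv
  have e2 := key v u hv pu
  rw [h1, h2, mul_comm u.1 v.1, e2] at e1
  have e3 : u.1 = v.1 := by omega
  rw [e3] at h1 h2
  exact Prod.ext e3 (Prod.ext (mul_left_cancel₀ hv.ne' h1).symm (mul_left_cancel₀ hv.ne' h2).symm)

/-- the separation -/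
lemma sep {a b s a' b' s' t c c' : ℤ} (ha : 0 < a) (ha' : 0 < a') (ht : 0 < t)
    (h : b ^ 2 + t * s ^ 2 = 4 * a * c) (h' : b' ^ 2 + t * s' ^ 2 = 4 * a' * c')
    (hne : a' * b - a * b' ≠ 0 ∨ a' * s - a * s' ≠ 0) :
    2 * a * a' ≤ (a' * b - a * b') ^ 2 + t * (a' * s - a * s') ^ 2 := by
  set K : ℤ := 2 * (a' * c + a * c') - b * b' - t * s * s' with hK
  have e : (a' * b - a * b') ^ 2 + t * (a' * s - a * s') ^ 2 = 2 * a * a' * K := by
    rw [hK]
    linear_combination a' ^ 2 * h + a ^ 2 * h'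
  have hpos : 0 < (a' * b - a * b') ^ 2 + t * (a' * s - a * s') ^ 2 := by
    rcases hne with h1 | h1
    · have := mul_nonneg ht.le (sq_nonneg (a' * s - a * s'))
      have := pow_pos (abs_pos.2 h1) 2
      rw [sq_abs] at this
      linarith
    · have h2 := pow_pos (abs_pos.2 h1) 2
      rw [sq_abs] at h2
      have := mul_pos ht h2
      have := sq_nonneg (a' * b - a * b')
      linarith
  have haa : 0 < 2 * a * a' := by positivity
  rw [e] at hpos ⊢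
  have hK0 : 0 < K := by
    by_contra hcon
    push Not at hcon
    nlinarith
  nlinarith

/-- **The number of quadratic numbers of one field.** -/
theorem card_field (m N t : ℕ) (hm : 1 ≤ m) (hN : 1 ≤ N) (F : Finset (ℤ × ℤ × ℤ))
    (hF : ∀ u ∈ F, 0 < u.1 ∧ u.1 ≤ N ∧ Prim u ∧ ds u < 0 ∧ op (ds u).natAbs = t ∧
      |(u.2.1 : ℝ)| ≤ 2 * u.1 * m ∧ rd u ≤ 2 * u.1 * m) :
    (F.card : ℝ) ≤ 45 * (m : ℝ) ^ 2 * (N : ℝ) ^ 2 := by
  classical
  have hN0 : (0 : ℝ) < N := by exact_mod_cast hN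
  have hm0 : (0 : ℝ) < m := by exact_mod_cast hm
  have hN1 : (1 : ℝ) ≤ N := by exact_mod_cast hN
  have hm1 : (1 : ℝ) ≤ m := by exact_mod_cast hm
  set c : ℝ := 4 * N with hc
  have hc0 : 0 < c := by positivity
  set g : ℤ × ℤ × ℤ → ℕ × ℕ := fun u =>
    (⌊((u.2.1 : ℝ) / (2 * u.1) + m) * c⌋₊, ⌊(rd u / (2 * u.1)) * c⌋₊) with hg
  have hb1 : ∀ u ∈ F, 0 ≤ ((u.2.1 : ℝ) / (2 * u.1) + m) * c ∧
      ((u.2.1 : ℝ) / (2 * u.1) + m) * c ≤ 8 * m * N := by
    intro u hu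
    obtain ⟨h1, -, -, -, -, h2, -⟩ := hF u hu
    have h1' : (0 : ℝ) < u.1 := by exact_mod_cast h1
    rw [abs_le] at h2
    have e1 : -(m : ℝ) ≤ (u.2.1 : ℝ) / (2 * u.1) := by
      rw [le_div_iff₀ (by positivity)]; linarith [h2.1]
    have e2 : (u.2.1 : ℝ) / (2 * u.1) ≤ m := by
      rw [div_le_iff₀ (by positivity)]; linarith [h2.2]
    constructor
    · exact mul_nonneg (by linarith) hc0.le
    · calc ((u.2.1 : ℝ) / (2 * u.1) + m) * c ≤ (2 * m) * c :=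
            mul_le_mul_of_nonneg_right (by linarith) hc0.le
        _ = _ := by rw [hc]; ring
  have hb2 : ∀ u ∈ F, 0 ≤ (rd u / (2 * u.1)) * c ∧ (rd u / (2 * u.1)) * c ≤ 4 * m * N := by
    intro u hu
    obtain ⟨h1, -, -, -, -, -, h2⟩ := hF u hu
    have h1' : (0 : ℝ) < u.1 := by exact_mod_cast h1
    have h0 : 0 ≤ rd u := Real.sqrt_nonneg _
    have e2 : rd u / (2 * u.1) ≤ m := by
      rw [div_le_iff₀ (by positivity)]; linarith
    constructor
    · positivity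
    · calc (rd u / (2 * u.1)) * c ≤ m * c := mul_le_mul_of_nonneg_right e2 hc0.le
        _ = _ := by rw [hc]; ring
  have hmaps : Set.MapsTo g F (range (8 * m * N + 1) ×ˢ range (4 * m * N + 1) : Finset (ℕ × ℕ)) := by
    intro u hu
    rw [Finset.mem_coe] at hu
    rw [Finset.mem_coe, mem_product, Finset.mem_range, Finset.mem_range]
    have e1 := hb1 u hu
    have e2 := hb2 u hu
    constructor
    · rw [Nat.lt_add_one_iff]
      apply Nat.floor_le_of_le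
      push_cast
      exact e1.2
    · rw [Nat.lt_add_one_iff]
      apply Nat.floor_le_of_le
      push_cast
      exact e2.2
  have hinj : Set.InjOn g F := by
    intro u hu v hv huv
    rw [Finset.mem_coe] at hu hv
    simp only [hg, Prod.mk.injEq] at huv
    have k1 := floor_close hc0 (hb1 u hu).1 (hb1 v hv).1 huv.1
    have k2 := floor_close hc0 (hb2 u hu).1 (hb2 v hv).1 huv.2
    obtain ⟨u1, u2, u3, u4, u5, -, -⟩ := hF u hu
    obtain ⟨v1, v2, v3, v4, v5, -, -⟩ := hF v hv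
    have u1' : (0 : ℝ) < u.1 := by exact_mod_cast u1
    have v1' : (0 : ℝ) < v.1 := by exact_mod_cast v1
    have u2' : (u.1 : ℝ) ≤ N := by exact_mod_cast u2
    have v2' : (v.1 : ℝ) ≤ N := by exact_mod_cast v2
    obtain ⟨s, hs⟩ := exists_sq (ds u).natAbs (Int.natAbs_ne_zero.2 u4.ne)
    obtain ⟨s', hs'⟩ := exists_sq (ds v).natAbs (Int.natAbs_ne_zero.2 v4.ne)
    rw [u5] at hs
    rw [v5] at hs'
    have ht : 0 < t := by rw [← u5]; exact op_pos _
    have hs1 : -ds u = (t : ℤ) * (s : ℤ) ^ 2 := by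
      have : ((ds u).natAbs : ℤ) = -ds u := by omega
      rw [← this, hs]; push_cast; ring
    have hs1' : -ds v = (t : ℤ) * (s' : ℤ) ^ 2 := by
      have : ((ds v).natAbs : ℤ) = -ds v := by omega
      rw [← this, hs']; push_cast; ring
    have hrd : rd u = Real.sqrt t * s := by
      unfold rd
      rw [hs]
      push_cast
      rw [Real.sqrt_mul (Nat.cast_nonneg _), Real.sqrt_sq (Nat.cast_nonneg _)]
    have hrd' : rd v = Real.sqrt t * s' := by
      unfold rd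
      rw [hs']
      push_cast
      rw [Real.sqrt_mul (Nat.cast_nonneg _), Real.sqrt_sq (Nat.cast_nonneg _)]
    by_contra huv2
    have hne : v.1 * u.2.1 - u.1 * v.2.1 ≠ 0 ∨ v.1 * (s : ℤ) - u.1 * (s' : ℤ) ≠ 0 := by
      by_contra hcon
      push Not at hcon
      obtain ⟨c1, c2⟩ := hcon
      apply huv2
      apply prop_eq u1 v1 u3 v3 (by linarith)
      -- the constant coefficients
      have e1 : 4 * u.1 * u.2.2 = u.2.1 ^ 2 + t * s ^ 2 := by
        rw [← hs1]; unfold ds; ring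
      have e2 : 4 * v.1 * v.2.2 = v.2.1 ^ 2 + t * s' ^ 2 := by
        rw [← hs1']; unfold ds; ring
      have e3 : 4 * u.1 * v.1 * (u.1 * v.2.2 - v.1 * u.2.2) = 0 := by
        have e4 : v.1 * u.2.1 = u.1 * v.2.1 := by linarith
        have e5 : v.1 * (s : ℤ) = u.1 * (s' : ℤ) := by linarith
        have e6 : (v.1 * u.2.1) ^ 2 = (u.1 * v.2.1) ^ 2 := by rw [e4]
        have e7 : (v.1 * (s : ℤ)) ^ 2 = (u.1 * (s' : ℤ)) ^ 2 := by rw [e5]
        linear_combination u.1 ^ 2 * e2 - v.1 ^ 2 * e1 - e6 - t * e7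
      rcases mul_eq_zero.1 e3 with h | h
      · have : 0 < 4 * u.1 * v.1 := by positivity
        omega
      · linarith
    have hsep := sep (t := (t : ℤ)) (c := u.2.2) (c' := v.2.2) u1 v1 (by exact_mod_cast ht)
      (by rw [← hs1]; unfold ds; ring) (by rw [← hs1']; unfold ds; ring) hne
    have hsep' : 2 * (u.1 : ℝ) * v.1 ≤ ((v.1 : ℝ) * u.2.1 - u.1 * v.2.1) ^ 2 +
        t * ((v.1 : ℝ) * s - u.1 * s') ^ 2 := by exact_mod_cast hsep
    have e1 : ((v.1 : ℝ) * u.2.1 - u.1 * v.2.1) ^ 2 + t * ((v.1 : ℝ) * s - u.1 * s') ^ 2 =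
        4 * (u.1 : ℝ) ^ 2 * (v.1 : ℝ) ^ 2 * (((u.2.1 : ℝ) / (2 * u.1) + m -
          ((v.2.1 : ℝ) / (2 * v.1) + m)) ^ 2 + (rd u / (2 * u.1) - rd v / (2 * v.1)) ^ 2) := by
      rw [hrd, hrd']
      have hst : (Real.sqrt t) ^ 2 = t := Real.sq_sqrt (Nat.cast_nonneg _)
      field_simp
      ring_nf
      rw [hst]
      ring
    have e2 : ((u.2.1 : ℝ) / (2 * u.1) + m - ((v.2.1 : ℝ) / (2 * v.1) + m)) ^ 2 ≤ (1 / c) ^ 2 := by
      rw [← sq_abs]; exact pow_le_pow_left₀ (abs_nonneg _) k1 2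
    have e3 : (rd u / (2 * u.1) - rd v / (2 * v.1)) ^ 2 ≤ (1 / c) ^ 2 := by
      rw [← sq_abs]; exact pow_le_pow_left₀ (abs_nonneg _) k2 2
    have e4 : 2 * (u.1 : ℝ) * v.1 ≤ 4 * (u.1 : ℝ) ^ 2 * (v.1 : ℝ) ^ 2 * ((1 / c) ^ 2 + (1 / c) ^ 2) := by
      rw [e1] at hsep'
      exact hsep'.trans (mul_le_mul_of_nonneg_left (add_le_add e2 e3) (by positivity))
    have e5 : 4 * (u.1 : ℝ) ^ 2 * (v.1 : ℝ) ^ 2 * ((1 / c) ^ 2 + (1 / c) ^ 2) =
        (u.1 * v.1) * ((u.1 * v.1) / (2 * N ^ 2)) := by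
      rw [hc]; field_simp; ring
    rw [e5] at e4
    have e6 : ((u.1 : ℝ) * v.1) / (2 * (N : ℝ) ^ 2) ≤ 1 / 2 := by
      rw [div_le_div_iff₀ (by positivity) (by norm_num)]
      nlinarith
    have e7 : (0 : ℝ) < u.1 * v.1 := by positivity
    nlinarith
  have hcard := Finset.card_le_card_of_injOn g hmaps hinj
  rw [card_product, card_range, card_range] at hcard
  have hcard' : (F.card : ℝ) ≤ (8 * m * N + 1) * (4 * m * N + 1) := by exact_mod_cast hcard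
  have hmN : 1 ≤ (m : ℝ) * N := by nlinarith
  nlinarith

/-- the relevant polynomials -/
noncomputable def UU (m k : ℕ) : Finset (ℤ × ℤ × ℤ) := by
  classical
  exact (Pool.Agent.X124.MV.box (2 ^ k)).filter fun u => 0 < u.1 ∧ Prim u ∧ ds u < 0 ∧
    |(u.2.1 : ℝ)| ≤ 2 * u.1 * m ∧ rd u ≤ 2 * u.1 * m

lemma mem_UU {m k : ℕ} {u : ℤ × ℤ × ℤ} : u ∈ UU m k ↔
    u ∈ Pool.Agent.X124.MV.box (2 ^ k) ∧ 0 < u.1 ∧ Prim u ∧ ds u < 0 ∧
    |(u.2.1 : ℝ)| ≤ 2 * u.1 * m ∧ rd u ≤ 2 * u.1 * m := by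
  classical
  unfold UU
  rw [Finset.mem_filter]

/-- **The weighted sum over all fields.** -/
theorem sum_UU (m k : ℕ) (hm : 1 ≤ m) :
    ∑ u ∈ UU m k, 1 / (op (ds u).natAbs : ℝ) ≤ 180 * (m : ℝ) ^ 2 * ((k : ℝ) + 1) * (4 : ℝ) ^ k := by
  classical
  have hmaps : ∀ u ∈ UU m k, op (ds u).natAbs ∈ Finset.Icc 1 (2 ^ (2 * k + 3)) := by
    intro u hu
    obtain ⟨h1, -, -, h4, -⟩ := mem_UU.1 hu
    rw [Finset.mem_Icc]
    refine ⟨op_pos _, ?_⟩
    have h5 := ds_le h1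
    have h0 : (ds u).natAbs ≠ 0 := Int.natAbs_ne_zero.2 h4.ne
    obtain ⟨t, ht⟩ := exists_sq (ds u).natAbs h0
    have ht0 : t ≠ 0 := by
      rintro rfl
      apply h0
      rw [ht]; ring
    have h6 : op (ds u).natAbs ≤ (ds u).natAbs := by
      calc op (ds u).natAbs = op (ds u).natAbs * 1 := (mul_one _).symm
        _ ≤ op (ds u).natAbs * t ^ 2 :=
            Nat.mul_le_mul_left _ (Nat.one_le_iff_ne_zero.2 (pow_ne_zero _ ht0))
        _ = _ := ht.symm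
    have h7 : (2 : ℕ) ^ (2 * k + 3) = 8 * (2 ^ k) ^ 2 := by
      rw [pow_add, mul_comm 2 k, pow_mul]; ring
    rw [h7]
    nlinarith [Nat.one_le_two_pow (n := k)]
  rw [← Finset.sum_fiberwise_of_maps_to hmaps]
  have h1 : ∀ t ∈ Finset.Icc 1 (2 ^ (2 * k + 3)),
      ∑ u ∈ (UU m k).filter (fun u => op (ds u).natAbs = t), 1 / (op (ds u).natAbs : ℝ) ≤
      45 * (m : ℝ) ^ 2 * ((2 ^ k : ℕ) : ℝ) ^ 2 * (1 / (t : ℝ)) := by
    intro t ht
    have e1 : ∑ u ∈ (UU m k).filter (fun u => op (ds u).natAbs = t), 1 / (op (ds u).natAbs : ℝ) =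
        (((UU m k).filter (fun u => op (ds u).natAbs = t)).card : ℝ) * (1 / (t : ℝ)) := by
      rw [Finset.sum_congr rfl (g := fun _ => 1 / (t : ℝ))
        (fun u hu => by rw [(Finset.mem_filter.1 hu).2]), Finset.sum_const, nsmul_eq_mul]
    rw [e1]
    apply mul_le_mul_of_nonneg_right _ (by positivity)
    apply card_field m (2 ^ k) t hm Nat.one_le_two_pow
    intro u hu
    rw [Finset.mem_filter] at hu
    obtain ⟨h1, h2, h3, h4, h5, h6⟩ := mem_UU.1 hu.1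
    refine ⟨h2, ?_, h3, h4, hu.2, h5, h6⟩
    exact (le_abs_self _).trans (mem_box.1 h1).1
  refine (Finset.sum_le_sum h1).trans ?_
  rw [← Finset.mul_sum]
  have h2 := sum_inv (2 * k + 3)
  push_cast at h2 ⊢
  have h3 : ((2 : ℝ) ^ k) ^ 2 = 4 ^ k := by
    rw [← pow_mul, mul_comm k 2, pow_mul]; norm_num
  rw [h3]
  have hk : (0 : ℝ) ≤ k := Nat.cast_nonneg k
  calc 45 * (m : ℝ) ^ 2 * 4 ^ k * _ ≤ 45 * (m : ℝ) ^ 2 * 4 ^ k * (2 * k + 3 + 1) :=
        mul_le_mul_of_nonneg_left h2 (by positivity)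
    _ ≤ 45 * (m : ℝ) ^ 2 * 4 ^ k * (4 * (k + 1)) :=
        mul_le_mul_of_nonneg_left (by linarith) (by positivity)
    _ = _ := by ring

end Pool.Agent.X124.MC
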