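import Mathlib
import Pool.Agent.X124.MC.Pack

set_option autoImplicit false

/-!
The almost everywhere lower bound with a logarithmic error term, for complex points.
-/

namespace Pool.Agent.X124.MC

open Finset MeasureTheory Filter Pool.Agent.X124.MV ComplexConjugate
open Pool.Agent.H813R3.Voj (op op_pos exists_sq)

/-- polynomials with real roots -/
lemma real_roots (u : ℤ × ℤ × ℤ) (z : ℂ) (h : 0 ≤ ds u) : |(u.1 : ℝ)| * z.im ^ 2 ≤ ‖evc u z‖ := by
  rcases eq_or_ne u.1 0 with ha | ha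
  · rw [ha]; simp
  have ha' : (u.1 : ℝ) ≠ 0 := by exact_mod_cast ha
  set w : ℝ := 2 * u.1 * z.re + u.2.1 with hw
  have h1 : 4 * (u.1 : ℝ) * (evc u z).re = w ^ 2 - ds u - 4 * (u.1 : ℝ) ^ 2 * z.im ^ 2 := by
    rw [evc_re, hw]
    unfold ds
    push_cast
    ring
  have h2 : (evc u z).im = z.im * w := evc_im u z
  have hD : (0 : ℝ) ≤ ds u := by exact_mod_cast h
  have h3 : ‖evc u z‖ ^ 2 = (evc u z).re ^ 2 + (evc u z).im ^ 2 := by
    rw [← Complex.normSq_eq_norm_sq, Complex.normSq_apply]; ring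
  have h4 : 16 * (u.1 : ℝ) ^ 2 * ‖evc u z‖ ^ 2 =
      (w ^ 2 - ds u - 4 * (u.1 : ℝ) ^ 2 * z.im ^ 2) ^ 2 + 16 * (u.1 : ℝ) ^ 2 * z.im ^ 2 * w ^ 2 := by
    rw [h3, ← h1, h2]; ring
  have h5 : 16 * (u.1 : ℝ) ^ 2 * (|(u.1 : ℝ)| * z.im ^ 2) ^ 2 ≤ 16 * (u.1 : ℝ) ^ 2 * ‖evc u z‖ ^ 2 := by
    rw [h4, mul_pow, sq_abs]
    have e1 : (w ^ 2 - ds u - 4 * (u.1 : ℝ) ^ 2 * z.im ^ 2) ^ 2 +
        16 * (u.1 : ℝ) ^ 2 * z.im ^ 2 * w ^ 2 = 16 * (u.1 : ℝ) ^ 2 * ((u.1 : ℝ) ^ 2 * (z.im ^ 2) ^ 2) +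
        ((w ^ 2 - ds u) ^ 2 + 8 * (u.1 : ℝ) ^ 2 * z.im ^ 2 * w ^ 2 +
          8 * (u.1 : ℝ) ^ 2 * z.im ^ 2 * ds u) := by ring
    rw [e1]
    have : 0 ≤ (w ^ 2 - ds u) ^ 2 + 8 * (u.1 : ℝ) ^ 2 * z.im ^ 2 * w ^ 2 +
          8 * (u.1 : ℝ) ^ 2 * z.im ^ 2 * ds u := by positivity
    linarith
  have h6 : (|(u.1 : ℝ)| * z.im ^ 2) ^ 2 ≤ ‖evc u z‖ ^ 2 :=
    le_of_mul_le_mul_left h5 (by positivity)
  exact (pow_le_pow_iff_left₀ (by positivity) (norm_nonneg _) two_ne_zero).1 h6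

/-- membership in `UU` -/
lemma mem_UU_of {m k : ℕ} (hm : 1 ≤ m) {u : ℤ × ℤ × ℤ} (ha : 0 < u.1) (hp : Prim u)
    (hd : ds u < 0) (hk : hn u ≤ 2 ^ k) {z : ℂ} (hz : z ∈ Rg m) (h : ‖evc u z‖ ≤ 1) :
    u ∈ UU (2 * m) k := by
  have hm0 : (0 : ℝ) < m := by exact_mod_cast hm
  have hm1 : (1 : ℝ) ≤ m := by exact_mod_cast hm
  have ha1 : (1 : ℝ) ≤ u.1 := by exact_mod_cast ha
  obtain ⟨h1, h2⟩ := basic h
  rw [mul_one] at h2
  obtain ⟨hz1, hz2⟩ := hz
  have hre := (Complex.abs_re_le_norm z).trans hz1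
  have him := (Complex.abs_im_le_norm z).trans hz1
  have h3 : |2 * u.1 * z.re + u.2.1| ≤ m := by
    have h3 : 1 / m * |2 * u.1 * z.re + u.2.1| ≤ 1 :=
      (mul_le_mul_of_nonneg_right hz2 (abs_nonneg _)).trans h1
    rw [one_div, inv_mul_le_iff₀ hm0, mul_one] at h3
    exact h3
  refine mem_UU.2 ⟨mem_box_of_hn hk, ha, hp, hd, ?_, ?_⟩
  · have e : (u.2.1 : ℝ) = (2 * u.1 * z.re + u.2.1) - 2 * u.1 * z.re := by ring
    rw [e]
    have e2 : |2 * (u.1 : ℝ) * z.re| ≤ 2 * u.1 * m := by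
      rw [abs_mul, abs_of_pos (by positivity : (0 : ℝ) < 2 * u.1)]
      exact mul_le_mul_of_nonneg_left hre (by positivity)
    have := abs_sub (2 * u.1 * z.re + u.2.1) (2 * (u.1 : ℝ) * z.re)
    push_cast
    nlinarith
  · unfold rd
    rw [Real.sqrt_le_left (by positivity)]
    have e1 : ((ds u).natAbs : ℝ) = -(ds u : ℝ) := by
      rw [Nat.cast_natAbs, Int.cast_abs, abs_of_neg (by exact_mod_cast hd)]
    rw [e1]
    have e2 := (abs_le.1 h2).2
    rw [abs_of_pos (by linarith : (0 : ℝ) < u.1)] at e2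
    have e3 : z.im ^ 2 ≤ (m : ℝ) ^ 2 := by
      rw [← sq_abs]; exact pow_le_pow_left₀ (abs_nonneg _) him 2
    have e4 : 0 ≤ (2 * u.1 * z.re + u.2.1 : ℝ) ^ 2 := sq_nonneg _
    push_cast
    have e5 : 4 * (u.1 : ℝ) ^ 2 * z.im ^ 2 ≤ 4 * (u.1 : ℝ) ^ 2 * (m : ℝ) ^ 2 :=
      mul_le_mul_of_nonneg_left e3 (by positivity)
    have e6 : (u.1 : ℝ) ≤ (u.1 : ℝ) ^ 2 * (m : ℝ) ^ 2 := by
      have : (1 : ℝ) ≤ u.1 * (m : ℝ) ^ 2 := by nlinarith [one_le_pow₀ hm1 (n := 2)]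
      nlinarith
    nlinarith

lemma clog_le_log {n : ℕ} (hn : 1 ≤ n) : (Nat.clog 2 n : ℝ) ≤ 1 + 2 * Real.log n := by
  have h1 := clog_le hn
  have h2 : (2 : ℝ) ^ Nat.clog 2 n ≤ 2 * n := by exact_mod_cast h1
  have h3 := Real.log_le_log (by positivity) h2
  have hn0 : (0 : ℝ) < n := by exact_mod_cast hn
  rw [Real.log_pow, Real.log_mul (by norm_num) hn0.ne'] at h3
  have h4 := Real.log_two_gt_d9
  have h5 : 0 ≤ Real.log n := Real.log_nonneg (by exact_mod_cast hn)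
  have h6 : (0 : ℝ) ≤ Nat.clog 2 n := Nat.cast_nonneg _
  by_contra hcon
  push Not at hcon
  have h7 : (1 + 2 * Real.log n) * Real.log 2 < Nat.clog 2 n * Real.log 2 :=
    mul_lt_mul_of_pos_right hcon (by linarith)
  nlinarith

/-- **Almost every complex number, in a region, with a logarithmic error term.** -/
theorem ae_log_region (C : ℝ) (hC : 1 < C) (m : ℕ) (hm : 1 ≤ m) : ∀ᵐ z : ℂ, z ∈ Rg m →
    ∃ c : ℝ, 0 < c ∧ ∀ u : ℤ × ℤ × ℤ, ¬ IsSquare (ds u) → Prim u →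
      c * (1 + Real.log (hn u)) ^ (-C) * wt u ≤ ‖evc u z‖ := by
  classical
  have hm0 : (0 : ℝ) < m := by exact_mod_cast hm
  have hm1 : (1 : ℝ) ≤ m := by exact_mod_cast hm
  set T : (ℤ × ℤ × ℤ) → ℕ → ℝ := fun u k =>
    ((k : ℝ) + 1) ^ (-C) * ((hn u : ℝ) / 2 ^ k) * wt u with hT
  set E : ℕ → Set ℂ := fun k => ⋃ u ∈ UU (2 * m) k,
    {z : ℂ | z ∈ Rg m ∧ ‖evc u z‖ ≤ T u k} with hE
  set A : ℝ := 7200000 * (m : ℝ) ^ 12 with hA
  have hvol : ∀ k : ℕ, volume (E k) ≤ ENNReal.ofReal (A * ((k : ℝ) + 1) ^ (1 - 2 * C)) := by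
    intro k
    refine (measure_biUnion_finset_le _ _).trans ?_
    have h2k : (0 : ℝ) < 2 ^ k := by positivity
    have hk1 : (1 : ℝ) ≤ (k : ℝ) + 1 := by
      have := Nat.cast_nonneg (α := ℝ) k
      linarith
    have h1 : ∀ u ∈ UU (2 * m) k,
        volume {z : ℂ | z ∈ Rg m ∧ ‖evc u z‖ ≤ T u k} ≤ ENNReal.ofReal
          (10000 * (m : ℝ) ^ 10 * (((k : ℝ) + 1) ^ (-(2 * C)) * ((4 : ℝ) ^ k)⁻¹) *
            (1 / (op (ds u).natAbs : ℝ))) := by
      intro u hu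
      obtain ⟨hb, ha, hp, hd, -⟩ := mem_UU.1 hu
      have hns : ¬ IsSquare (ds u) := by
        rintro ⟨r, hr⟩
        nlinarith [mul_self_nonneg r]
      have hn1 : (1 : ℝ) ≤ hn u := by exact_mod_cast one_le_hn hns
      have hn2 : (hn u : ℝ) ≤ 2 ^ k := by
        have hb := mem_box.1 hb
        apply hn_le
        · have : ((|u.1| : ℤ) : ℝ) ≤ (((2 ^ k : ℕ) : ℤ) : ℝ) := by exact_mod_cast hb.1
          push_cast at this
          exact this
        · have : ((|u.2.1| : ℤ) : ℝ) ≤ (((2 ^ k : ℕ) : ℤ) : ℝ) := by exact_mod_cast hb.2.1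
          push_cast at this
          exact this
        · have : ((|u.2.2| : ℤ) : ℝ) ≤ (((2 ^ k : ℕ) : ℤ) : ℝ) := by exact_mod_cast hb.2.2
          push_cast at this
          exact this
      have hw := wt_pos u
      have hw1 := wt_le u
      have hT0 : 0 ≤ T u k := by rw [hT]; positivity
      have hT1 : T u k ≤ 1 := by
        rw [hT]
        simp only
        have e1 : ((k : ℝ) + 1) ^ (-C) ≤ 1 :=
          Real.rpow_le_one_of_one_le_of_nonpos hk1 (by linarith)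
        have e2 : (hn u : ℝ) / 2 ^ k ≤ 1 := by rw [div_le_one h2k]; exact hn2
        have e3 : 0 ≤ (hn u : ℝ) / 2 ^ k := by positivity
        exact mul_le_one₀ (mul_le_one₀ e1 e3 e2) hw.le hw1
      refine (vol_c hns hm1 _ hT0 hT1).trans (ENNReal.ofReal_le_ofReal (le_of_eq ?_))
      have hop : (0 : ℝ) < op (ds u).natAbs := by exact_mod_cast op_pos _
      have e0 : wt u ^ 2 = 1 / (op (ds u).natAbs : ℝ) := by
        unfold wt
        rw [← Real.rpow_natCast, ← Real.rpow_mul hop.le]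
        norm_num
        exact Real.rpow_neg_one _
      have e1 : T u k ^ 2 = ((k : ℝ) + 1) ^ (-(2 * C)) * ((hn u : ℝ) ^ 2 / (2 ^ k) ^ 2) *
          (1 / (op (ds u).natAbs : ℝ)) := by
        rw [hT]
        simp only
        rw [mul_pow, mul_pow, e0, div_pow, ← Real.rpow_natCast
          (((k : ℝ) + 1) ^ (-C)) 2, ← Real.rpow_mul (by linarith)]
        congr 3
        push_cast
        ring
      rw [e1]
      have e2 : ((2 : ℝ) ^ k) ^ 2 = 4 ^ k := by
        rw [← pow_mul, mul_comm k 2, pow_mul]; norm_num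
      rw [e2]
      have : (hn u : ℝ) ≠ 0 := by linarith
      field_simp
    refine (Finset.sum_le_sum h1).trans ?_
    rw [← ENNReal.ofReal_sum_of_nonneg (fun u _ => by positivity)]
    apply ENNReal.ofReal_le_ofReal
    rw [← Finset.mul_sum]
    have hs := sum_UU (2 * m) k (by omega)
    push_cast at hs
    calc _ ≤ 10000 * (m : ℝ) ^ 10 * (((k : ℝ) + 1) ^ (-(2 * C)) * ((4 : ℝ) ^ k)⁻¹) *
          (180 * (2 * (m : ℝ)) ^ 2 * ((k : ℝ) + 1) * 4 ^ k) :=
          mul_le_mul_of_nonneg_left hs (by positivity)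
      _ = A * (((k : ℝ) + 1) ^ (-(2 * C)) * ((k : ℝ) + 1) ^ (1 : ℝ)) := by
          rw [hA, Real.rpow_one]; field_simp; ring
      _ = _ := by
          rw [← Real.rpow_add (by linarith)]
          congr 2
          ring
  have hsum : ∑' k, volume (E k) ≠ ⊤ := by
    have h1 : Summable fun k : ℕ => A * ((k : ℝ) + 1) ^ (1 - 2 * C) := by
      apply Summable.mul_left
      have h2 := (summable_nat_add_iff 1).2
        (Real.summable_nat_rpow.2 (by linarith : 1 - 2 * C < -1))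
      refine h2.congr fun k => ?_
      push_cast
      rfl
    have h2 : ∑' k : ℕ, ENNReal.ofReal (A * ((k : ℝ) + 1) ^ (1 - 2 * C)) ≠ ⊤ := by
      rw [← ENNReal.ofReal_tsum_of_nonneg (fun k => by positivity) h1]
      exact ENNReal.ofReal_ne_top
    exact ne_top_of_le_ne_top h2 (ENNReal.tsum_le_tsum hvol)
  have hBC := ae_eventually_notMem hsum
  filter_upwards [hBC] with z hz hzR
  obtain ⟨k0, hk0⟩ := eventually_atTop.1 hz
  have hP : (0 : ℝ) < 2 ^ (k0 + 1) := by positivity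
  have hP1 : (1 : ℝ) ≤ 2 ^ (k0 + 1) := one_le_pow₀ (by norm_num)
  set B : ℝ := ((k0 : ℝ) + 3) ^ (-C) * (1 / 2 ^ (k0 + 1)) with hB
  have hk00 : (0 : ℝ) ≤ k0 := Nat.cast_nonneg _
  have hB0 : 0 < B := by rw [hB]; positivity
  have hB1 : B ≤ 1 := by
    rw [hB]
    have e1 : ((k0 : ℝ) + 3) ^ (-C) ≤ 1 :=
      Real.rpow_le_one_of_one_le_of_nonpos (by linarith) (by linarith)
    have e2 : 1 / (2 : ℝ) ^ (k0 + 1) ≤ 1 := by rw [div_le_one hP]; exact hP1
    exact mul_le_one₀ e1 (by positivity) e2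
  set c : ℝ := min B (1 / (m : ℝ) ^ 2) with hc
  have hc0 : 0 < c := lt_min hB0 (by positivity)
  have hcB : c ≤ B := min_le_left _ _
  have hcm : c ≤ 1 / (m : ℝ) ^ 2 := min_le_right _ _
  -- the case of a positive leading coefficient
  have main : ∀ u : ℤ × ℤ × ℤ, ¬ IsSquare (ds u) → Prim u → 0 < u.1 →
      c * (1 + Real.log (hn u)) ^ (-C) * wt u ≤ ‖evc u z‖ := by
    intro u hu hp ha
    have hn1 := one_le_hn hu
    have hnr : (1 : ℝ) ≤ hn u := by exact_mod_cast hn1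
    have hL0 : 0 ≤ Real.log (hn u) := Real.log_nonneg hnr
    have hw := wt_pos u
    have hw1 := wt_le u
    have hl1 : (1 + Real.log (hn u)) ^ (-C) ≤ 1 :=
      Real.rpow_le_one_of_one_le_of_nonpos (by linarith) (by linarith)
    have hl0 : 0 < (1 + Real.log (hn u)) ^ (-C) := by positivity
    have hle : (1 + Real.log (hn u)) ^ (-C) * wt u ≤ 1 := mul_le_one₀ hl1 hw.le hw1
    rcases le_or_gt 0 (ds u) with hd | hd
    · have h1 := real_roots u z hd
      have ha1 : (1 : ℝ) ≤ |(u.1 : ℝ)| := by exact_mod_cast Int.one_le_abs ha.ne'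
      have h2 : 1 / (m : ℝ) ^ 2 ≤ z.im ^ 2 := by
        rw [← sq_abs z.im]
        have := pow_le_pow_left₀ (by positivity) hzR.2 2
        rwa [div_pow, one_pow] at this
      calc c * (1 + Real.log (hn u)) ^ (-C) * wt u =
            c * ((1 + Real.log (hn u)) ^ (-C) * wt u) := by ring
        _ ≤ c * 1 := mul_le_mul_of_nonneg_left hle hc0.le
        _ ≤ z.im ^ 2 := by linarith
        _ ≤ |(u.1 : ℝ)| * z.im ^ 2 := by nlinarith [sq_nonneg z.im]
        _ ≤ _ := h1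
    · by_cases hbig : ‖evc u z‖ ≤ 1
      · set k := max (Nat.clog 2 (hn u)) k0 with hk
        have h1 : hn u ≤ 2 ^ k := (Nat.le_pow_clog (by norm_num) _).trans
          (Nat.pow_le_pow_right (by norm_num) (le_max_left _ _))
        have h2 : 2 ^ k ≤ 2 ^ (k0 + 1) * hn u := by
          have h3 := clog_le hn1
          rcases le_total (Nat.clog 2 (hn u)) k0 with h | h
          · rw [hk, max_eq_right h, pow_succ]
            nlinarith [Nat.one_le_two_pow (n := k0)]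
          · rw [hk, max_eq_left h, pow_succ]
            calc 2 ^ Nat.clog 2 (hn u) ≤ 2 * hn u := h3
              _ ≤ 2 ^ k0 * 2 * hn u := by nlinarith [Nat.one_le_two_pow (n := k0)]
        have h5 := hk0 k (le_max_right _ _)
        rw [hE] at h5
        simp only [Set.mem_iUnion, not_exists, Set.mem_ofPred_eq, not_and, not_le] at h5
        have h6 := h5 u (mem_UU_of hm ha hp hd h1 hzR hbig) hzR
        have h2' : (2 : ℝ) ^ k ≤ 2 ^ (k0 + 1) * hn u := by exact_mod_cast h2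
        have h2k : (0 : ℝ) < 2 ^ k := by positivity
        refine le_trans (mul_le_mul_of_nonneg_right ?_ hw.le) h6.le
        have hkk : (k : ℝ) + 1 ≤ ((k0 : ℝ) + 3) * (1 + Real.log (hn u)) := by
          have e1 := clog_le_log hn1
          have e2 : (k : ℝ) ≤ (Nat.clog 2 (hn u) : ℝ) + k0 := by
            have : k ≤ Nat.clog 2 (hn u) + k0 := by omega
            exact_mod_cast this
          nlinarith [mul_nonneg hk00 hL0]
        have e1 : ((k0 : ℝ) + 3) ^ (-C) * (1 + Real.log (hn u)) ^ (-C) ≤ ((k : ℝ) + 1) ^ (-C) := by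
          rw [← Real.mul_rpow (by positivity) (by positivity)]
          exact Real.rpow_le_rpow_of_nonpos (by positivity) hkk (by linarith)
        have e2 : 1 / 2 ^ (k0 + 1) ≤ (hn u : ℝ) / 2 ^ k := by
          rw [div_le_div_iff₀ hP h2k]
          linarith
        calc c * (1 + Real.log (hn u)) ^ (-C) ≤ B * (1 + Real.log (hn u)) ^ (-C) :=
              mul_le_mul_of_nonneg_right hcB hl0.le
          _ = (((k0 : ℝ) + 3) ^ (-C) * (1 + Real.log (hn u)) ^ (-C)) * (1 / 2 ^ (k0 + 1)) := by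
              rw [hB]; ring
          _ ≤ _ := mul_le_mul e1 e2 (by positivity) (by positivity)
      · push Not at hbig
        calc c * (1 + Real.log (hn u)) ^ (-C) * wt u =
            c * ((1 + Real.log (hn u)) ^ (-C) * wt u) := by ring
          _ ≤ c * 1 := mul_le_mul_of_nonneg_left hle hc0.le
          _ ≤ 1 := by linarith
          _ ≤ _ := hbig.le
  refine ⟨c, hc0, fun u hu hp => ?_⟩
  rcases lt_or_gt_of_ne (ne_of_not_sq hu).1 with ha | ha
  · set v : ℤ × ℤ × ℤ := (-u.1, -u.2.1, -u.2.2) with hv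
    have hds : ds v = ds u := by rw [hv]; unfold ds; ring
    have hhn : hn v = hn u := by rw [hv]; unfold hn; simp
    have hev : evc v z = -evc u z := by rw [hv]; unfold evc; push_cast; ring
    have hpv : Prim v := by
      rw [hv]; unfold Prim at hp ⊢
      simp only [Int.gcd_neg, Int.neg_gcd]
      exact hp
    have hwt : wt v = wt u := by unfold wt; rw [hds]
    have := main v (by rw [hds]; exact hu) hpv (by rw [hv]; simpa using ha)
    rw [hhn, hev, norm_neg, hwt] at this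
    exact this
  · exact main u hu hp ha

/-- **Almost every complex number, with a logarithmic error term.** -/
theorem ae_log (C : ℝ) (hC : 1 < C) : ∀ᵐ z : ℂ,
    ∃ c : ℝ, 0 < c ∧ ∀ u : ℤ × ℤ × ℤ, ¬ IsSquare (ds u) → Prim u →
      c * (1 + Real.log (hn u)) ^ (-C) * wt u ≤ ‖evc u z‖ := by
  have h1 : ∀ᵐ z : ℂ, ∀ n : ℕ, z ∈ Rg (((n + 1 : ℕ) : ℝ)) → ∃ c : ℝ, 0 < c ∧ ∀ u : ℤ × ℤ × ℤ,
      ¬ IsSquare (ds u) → Prim u → c * (1 + Real.log (hn u)) ^ (-C) * wt u ≤ ‖evc u z‖ := by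
    rw [ae_all_iff]
    intro n
    exact ae_log_region C hC (n + 1) (by omega)
  filter_upwards [h1, ae_im] with z hz hi
  have hi0 : 0 < |z.im| := abs_pos.2 hi
  obtain ⟨n, hn⟩ := exists_nat_gt (max ‖z‖ (1 / |z.im|))
  refine hz n ⟨?_, ?_⟩
  · have := (le_max_left ‖z‖ (1 / |z.im|)).trans hn.le
    push_cast
    linarith
  · have h2 := (le_max_right ‖z‖ (1 / |z.im|)).trans hn.le
    have hn0 : (0 : ℝ) ≤ n := Nat.cast_nonneg n
    push_cast
    rw [div_le_iff₀ (by linarith)]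
    rw [div_le_iff₀ hi0] at h2
    nlinarith

end Pool.Agent.X124.MC
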