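import Mathlib
import Pool.Agent.X124.MC.Log

set_option autoImplicit false

/-!
The inequality with a logarithmic error term for almost every tuple of complex points.
-/

namespace Pool.Agent.X124.MC

open Polynomial Finset MeasureTheory Filter Pool.Agent.X124.MV ComplexConjugate
  Pool.Agent.H990R4.VJ Pool.Agent.W226.VQ
open Pool.Agent.H813R3.Voj (op op_pos exists_sq)

/-- the good tuples of complex numbers -/
def GoodL {s : ℕ} (β : Fin s → ℂ) : Prop :=
  (∀ i, (β i).im ≠ 0) ∧ (∀ i j, i ≠ j → β i ≠ β j ∧ β i ≠ conj (β j)) ∧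
  ∀ (n : ℕ) (i : Fin s), ∃ c : ℝ, 0 < c ∧ ∀ u : ℤ × ℤ × ℤ, ¬ IsSquare (ds u) → Prim u →
      c * (1 + Real.log (hn u)) ^ (-(1 + 1 / ((n : ℝ) + 1))) * wt u ≤ ‖evc u (β i)‖

theorem ae_goodL (s : ℕ) : ∀ᵐ β : Fin s → ℂ, GoodL β := by
  have h2 : ∀ᵐ β : Fin s → ℂ, ∀ (n : ℕ) (i : Fin s), ∃ c : ℝ, 0 < c ∧ ∀ u : ℤ × ℤ × ℤ,
      ¬ IsSquare (ds u) → Prim u →
      c * (1 + Real.log (hn u)) ^ (-(1 + 1 / ((n : ℝ) + 1))) * wt u ≤ ‖evc u (β i)‖ := by
    rw [ae_all_iff]; intro n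
    rw [ae_all_iff]; intro i
    refine ae_evalC i (ae_log _ ?_)
    have : 0 < 1 / ((n : ℝ) + 1) := by positivity
    linarith
  filter_upwards [ae_goodC s, h2] with β g1 g2
  exact ⟨g1.1, g1.2.1, g2⟩

/-- the sum of the logarithms of the values at complex points -/
theorem sum_l {s : ℕ} {β : Fin s → ℂ} (h : GoodL β) (C : ℝ) (hC : 1 < C) :
    ∃ B : ℝ, ∀ u : ℤ × ℤ × ℤ, ¬ IsSquare (ds u) → Prim u →
      (∀ j, evc u (β j) ≠ 0) ∧ ((s : ℝ) - 1) * Real.log (hn u) + Real.log (wt u) -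
        C * Real.log (1 + Real.log (hn u)) - B ≤ ∑ j, Real.log ‖evc u (β j)‖ := by
  classical
  obtain ⟨him, hne, hg⟩ := h
  obtain ⟨n, hn'⟩ := exists_nat_one_div_lt (sub_pos.2 hC)
  choose c hc hone using hg n
  have g2 : ∀ p : Fin s × Fin s, ∃ e : ℝ, 0 < e ∧ (p.1 ≠ p.2 → ∀ c' : ℝ, c' ≤ e →
      ∀ u : ℤ × ℤ × ℤ, 1 ≤ hn u → ‖evc u (β p.1)‖ ≤ c' * hn u →
      ‖evc u (β p.2)‖ ≤ c' * hn u → False) := by
    intro p
    by_cases hp : p.1 = p.2
    · exact ⟨1, one_pos, fun h => (h hp).elim⟩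
    · obtain ⟨e, h1, h2⟩ := two_c (him p.1) (hne _ _ hp).1 (hne _ _ hp).2
      exact ⟨e, h1, fun _ => h2⟩
  choose e he htwo using g2
  obtain ⟨a3, ha3, ha3'⟩ := exists_pos_le e he
  obtain ⟨a4, ha4, ha4'⟩ := exists_pos_le c hc
  set κ : ℝ := min a3 1 with hκ
  have hκ0 : 0 < κ := by rw [hκ]; positivity
  have hκ3 : κ ≤ a3 := min_le_left _ _
  have hκ11 : κ ≤ 1 := min_le_right _ _
  have hlκ : Real.log κ ≤ 0 := Real.log_nonpos hκ0.le hκ11
  set B : ℝ := (s : ℝ) * (-Real.log κ) + |Real.log a4| with hB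
  refine ⟨B, fun u hu hpu => ?_⟩
  have hn1 : (1 : ℝ) ≤ hn u := by exact_mod_cast one_le_hn hu
  have hL : 0 ≤ Real.log (hn u) := Real.log_nonneg hn1
  have hw := wt_pos u
  have hlw : Real.log (wt u) ≤ 0 := Real.log_nonpos hw.le (wt_le u)
  have hH0 : (0 : ℝ) < hn u := by linarith
  have hLL : 0 ≤ Real.log (1 + Real.log (hn u)) := Real.log_nonneg (by linarith)
  have hev : ∀ j, 0 < ‖evc u (β j)‖ := fun j =>
    lt_of_lt_of_le (by have := hc j; positivity) (hone j u hu hpu)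
  refine ⟨fun j => norm_pos_iff.1 (hev j), ?_⟩
  have hs0 : (0 : ℝ) ≤ s := Nat.cast_nonneg s
  have habs4 := neg_abs_le (Real.log a4)
  have hA4 := abs_nonneg (Real.log a4)
  by_cases hsmall : ∃ i, ‖evc u (β i)‖ ≤ κ * hn u
  · obtain ⟨i, hi⟩ := hsmall
    have hs1 : 1 ≤ s := by have := i.2; omega
    have hrest : ∀ l ∈ Finset.univ.erase i, Real.log κ + Real.log (hn u) ≤
        Real.log ‖evc u (β l)‖ := by
      intro l hl
      apply log_low hκ0 hH0
      by_contra hl'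
      push Not at hl'
      exact htwo (i, l) (Finset.ne_of_mem_erase hl).symm κ (hκ3.trans (ha3' _)) u (one_le_hn hu)
        hi hl'.le
    have hp2 : Real.log a4 + (-(1 + 1 / ((n : ℝ) + 1))) * Real.log (1 + Real.log (hn u)) +
        Real.log (wt u) ≤ Real.log ‖evc u (β i)‖ := by
      rw [← Real.log_rpow (by linarith),
        ← Real.log_mul ha4.ne' (Real.rpow_pos_of_pos (by linarith) _).ne',
        ← Real.log_mul (by positivity) hw.ne']
      refine Real.log_le_log (by positivity) (le_trans ?_ (hone i u hu hpu))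
      apply mul_le_mul_of_nonneg_right _ hw.le
      exact mul_le_mul_of_nonneg_right (ha4' _) (by positivity)
    have hcard : ((Finset.univ.erase i : Finset (Fin s)).card : ℝ) = s - 1 := by
      rw [Finset.card_erase_of_mem (Finset.mem_univ _), Finset.card_univ, Fintype.card_fin]
      rw [Nat.cast_sub (by omega)]
      push_cast
      ring
    have hsum := Finset.sum_le_sum hrest
    rw [Finset.sum_const, nsmul_eq_mul, hcard] at hsum
    rw [← Finset.add_sum_erase _ _ (Finset.mem_univ i)]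
    have hε' : -(C * Real.log (1 + Real.log (hn u))) ≤
        -(1 + 1 / ((n : ℝ) + 1)) * Real.log (1 + Real.log (hn u)) := by
      nlinarith
    have hs1' : (1 : ℝ) ≤ s := by exact_mod_cast hs1
    have hk : ((s : ℝ) - 1) * Real.log κ ≥ s * Real.log κ := by nlinarith
    nlinarith
  · push Not at hsmall
    have hsum := sum_big (fun j => ‖evc u (β j)‖) κ (hn u) hκ0 hH0 (fun j => (hsmall j).le)
    have : 0 ≤ C * Real.log (1 + Real.log (hn u)) := by positivity
    nlinarith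

lemma prim_cu {f : ℤ[X]} (hf : f.IsPrimitive) (hd : f.natDegree = 2) : Prim (cu f) := by
  set d : ℕ := Int.gcd (cu f).1 (Int.gcd (cu f).2.1 (cu f).2.2) with hd'
  have h1 : (d : ℤ) ∣ f.coeff 2 := Int.gcd_dvd_left _ _
  have h2 : (d : ℤ) ∣ ((Int.gcd (cu f).2.1 (cu f).2.2 : ℕ) : ℤ) := Int.gcd_dvd_right _ _
  have h3 : (d : ℤ) ∣ f.coeff 1 := h2.trans (Int.gcd_dvd_left _ _)
  have h4 : (d : ℤ) ∣ f.coeff 0 := h2.trans (Int.gcd_dvd_right _ _)
  have h5 : C (d : ℤ) ∣ f := by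
    rw [C_dvd_iff_dvd_coeff]
    intro i
    rcases lt_or_ge 2 i with hi | hi
    · rw [coeff_eq_zero_of_natDegree_lt (by omega)]
      exact dvd_zero _
    · interval_cases i
      · exact h4
      · exact h3
      · exact h1
  have h6 := hf _ h5
  rw [Int.isUnit_iff] at h6
  unfold Prim
  omega

/-- **quadratic points** -/
theorem quad_l {s : ℕ} {β : Fin s → ℂ} (hβ : GoodL β) (C : ℝ) (hC : 1 < C) (α : Fin 0 → ℝ) :
    ∃ B : ℝ, ∀ (x : ℂ) (f : ℤ[X]), Irreducible f → f.natDegree = 2 → aeval x f = 0 →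
      (∀ j, aeval (β j) f ≠ 0) ∧
      ((f.map (Int.castRingHom ℂ)).roots.map (gg α β)).sum ≤
        2 * Real.log (mm f) + 2 * lD x + 2 * C * Real.log (1 + Real.log (mm f)) + B := by
  obtain ⟨B, hB⟩ := sum_l hβ C hC
  refine ⟨2 * AA α β + 2 * B + 2 * |(s : ℝ) - 1| * Real.log 4 + 2 * C * Real.log 3,
    fun x f hf hd hx => ?_⟩
  have hprim : f.IsPrimitive := hf.isPrimitive (by omega)
  obtain ⟨h0', h1⟩ := hB (cu f) (not_sq hf hd) (prim_cu hprim hd)
  have hevc : ∀ j, aeval (β j) f ≠ 0 := fun j => by rw [← evc_cu f hd.le]; exact h0' j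
  refine ⟨hevc, ?_⟩
  rw [prox_all f hf.ne_zero α β (fun j => j.elim0) hevc]
  have h2' : ∑ j, Real.log ‖evc (cu f) (β j)‖ = ∑ j, Real.log ‖aeval (β j) f‖ :=
    Finset.sum_congr rfl fun j _ => by rw [evc_cu f hd.le]
  rw [h2', log_wt, ds_cu] at h1
  have h3 : Real.log (op (dsc (cv f)).natAbs) ≤ 2 * lD x := log_op_le f hf hd x hx
  have hm1 := one_le_mm hf.ne_zero
  have hm : 0 < mm f := by linarith
  have hL0 : 0 ≤ Real.log (mm f) := Real.log_nonneg hm1
  have hn1 : (0 : ℝ) < hn (cu f) := by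
    exact_mod_cast one_le_hn (not_sq hf hd)
  have h4 := log_comp hn1 hm (by norm_num) (hn_le_mm f hd)
  have h5 := log_comp hm hn1 (by norm_num) (mm_le_hn f hd.le)
  have h6 : Real.log 3 ≤ Real.log 4 := Real.log_le_log (by norm_num) (by norm_num)
  have h7 : |Real.log (hn (cu f)) - Real.log (mm f)| ≤ Real.log 4 := by
    rw [abs_le]; constructor <;> linarith
  have h8 : -(|(s : ℝ) - 1| * Real.log 4) ≤
      ((s : ℝ) - 1) * (Real.log (hn (cu f)) - Real.log (mm f)) := by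
    have h9 := neg_abs_le (((s : ℝ) - 1) * (Real.log (hn (cu f)) - Real.log (mm f)))
    rw [abs_mul] at h9
    have h10 := mul_le_mul_of_nonneg_left h7 (abs_nonneg ((s : ℝ) - 1))
    linarith
  have hl4 : Real.log 4 ≤ 2 := by
    have h1 : Real.log 4 = 2 * Real.log 2 := by
      rw [show (4 : ℝ) = 2 ^ 2 by norm_num, Real.log_pow]; push_cast; ring
    have := Real.log_two_lt_d9
    linarith
  have h11 : Real.log (1 + Real.log (hn (cu f))) ≤ Real.log 3 + Real.log (1 + Real.log (mm f)) := by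
    have hn1' : (1 : ℝ) ≤ hn (cu f) := by exact_mod_cast one_le_hn (not_sq hf hd)
    have hLn : 0 ≤ Real.log (hn (cu f)) := Real.log_nonneg hn1'
    rw [← Real.log_mul (by norm_num) (by linarith)]
    exact Real.log_le_log (by linarith) (by linarith)
  have h12 : C * Real.log (1 + Real.log (hn (cu f))) ≤
      C * (Real.log 3 + Real.log (1 + Real.log (mm f))) :=
    mul_le_mul_of_nonneg_left h11 (by linarith)
  have h13 : (Finset.univ : Finset (Fin 0)) = ∅ := rfl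
  rw [hd]
  push_cast
  rw [h13, Finset.sum_empty]
  nlinarith

/-- **rational points** -/
theorem lin_l {s : ℕ} {β : Fin s → ℂ} (hβ : GoodL β) (α : Fin 0 → ℝ) :
    ∃ B : ℝ, ∀ f : ℤ[X], f.natDegree = 1 →
      (∀ j, aeval (β j) f ≠ 0) ∧
      ((f.map (Int.castRingHom ℂ)).roots.map (gg α β)).sum ≤ B := by
  choose κ' hκ' hlin using fun j => lin_c (hβ.1 j)
  obtain ⟨κ, hκ0, hκ⟩ := exists_pos_le κ' hκ'
  refine ⟨AA α β - 2 * s * Real.log κ + 2 * s * Real.log 3, fun f hd => ?_⟩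
  have hf0 : f ≠ 0 := by rintro rfl; simp at hd
  have hlc : f.coeff 1 ≠ 0 := by
    rw [← hd, coeff_natDegree, leadingCoeff_ne_zero]; exact hf0
  have hln : 1 ≤ ln (f.coeff 1, f.coeff 0) := le_max_of_le_left (Int.natAbs_pos.2 hlc)
  have hln0 : (0 : ℝ) < ln (f.coeff 1, f.coeff 0) := by exact_mod_cast hln
  have hevc' : ∀ j, aeval (β j) f = (f.coeff 1 : ℂ) * β j + f.coeff 0 := by
    intro j
    rw [aeval_eq_sum_range' (n := 2) (by omega)]
    simp only [Finset.sum_range_succ, Finset.range_zero, Finset.sum_empty, zsmul_eq_mul]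
    ring
  have h3 : ∀ j, κ * ln (f.coeff 1, f.coeff 0) ≤ ‖aeval (β j) f‖ := fun j => by
    rw [hevc' j]
    exact (mul_le_mul_of_nonneg_right (hκ j) hln0.le).trans (hlin j _)
  have hevc : ∀ j, aeval (β j) f ≠ 0 := fun j =>
    norm_pos_iff.1 (lt_of_lt_of_le (by positivity) (h3 j))
  refine ⟨hevc, ?_⟩
  rw [prox_all f hf0 α β (fun j => j.elim0) hevc]
  have h4 := sum_big (fun j => ‖aeval (β j) f‖) κ _ hκ0 hln0 h3
  have hm : 0 < mm f := lt_of_lt_of_le one_pos (one_le_mm hf0)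
  have h5 := log_comp hm hln0 (by norm_num) (ln_mm f hd).2
  have h13 : (Finset.univ : Finset (Fin 0)) = ∅ := rfl
  have hs0 : (0 : ℝ) ≤ s := Nat.cast_nonneg s
  have h6 := mul_le_mul_of_nonneg_left h5 hs0
  rw [hd]
  push_cast
  rw [h13, Finset.sum_empty]
  nlinarith

end Pool.Agent.X124.MC
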